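import Mathlib

set_option autoImplicit false

namespace Pool.Agent.Efc

/-!
MP_efc1da_co: `m(k,a) <= exp(-a log k/(64k)) m(k,0)`.
Complete proof: note [PROOF] of helper81 (nid 2081). One module per statement `...Stmt`;
a module may assume the other statements as hypotheses exactly as indicated in its title.
-/

/-- `F` is `k`-uniform. -/
def Unif {α : Type} (k : ℕ) (F : Finset (Finset α)) : Prop := ∀ A ∈ F, A.card = k

/-- `F` is intersecting. -/
def Inter {α : Type} (F : Finset (Finset α)) : Prop := ∀ A ∈ F, ∀ A' ∈ F, ¬ Disjoint A A'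

/-- no set of fewer than `k` points meets all members of `F`. -/
def Cov {α : Type} (k : ℕ) (F : Finset (Finset α)) : Prop :=
  ∀ T : Finset α, T.card < k → ∃ A ∈ F, Disjoint A T

/-- spreadness of an indexed family `(S i)`, `i ∈ I`. -/
def Spr {α ι : Type} [DecidableEq α] (ρ : ℝ) (I : Finset ι) (S : ι → Finset α) : Prop :=
  ∀ T : Finset α, T.Nonempty → ((I.filter (fun i => T ⊆ S i)).card : ℝ) * ρ ^ T.card ≤ I.card

/-- colour class `j` of a colouring with four colours. -/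
def Wc {α : Type} [Fintype α] [DecidableEq α] (c : α → Fin 4) (j : Fin 4) : Finset α :=
  Finset.univ.filter (fun x => c x = j)

/-- recolour the set `T` with the colour `j`. -/
def recol {α : Type} [DecidableEq α] (c : α → Fin 4) (T : Finset α) (j : Fin 4) : α → Fin 4 :=
  fun x => if x ∈ T then j else c x

/-- `u` is the minimum of `|R i' minus W|` over the indices `i'` in `I` with
`R i'` contained in `R i` together with `W`. -/
def FragMin {α ι : Type} [DecidableEq α] (I : Finset ι) (R : ι → Finset α) (W : Finset α)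
    (i : ι) (u : ℕ) : Prop :=
  (∃ i' ∈ I, R i' ⊆ R i ∪ W ∧ (R i' \ W).card = u) ∧
    ∀ i' ∈ I, R i' ⊆ R i ∪ W → u ≤ (R i' \ W).card

open Classical in
/-- (Frag) one counting round. `J` is the set of colours which are not touched, `j ∈ J` the
target colour; the family `R c` on the index set `I' c` does not change when points with
colours outside `J` are recoloured with the colour `j`.
PROOF: for a pair `(c, i)` in the set let `i'` be a minimiser, `T = R c i' \ W_j`, `|T| = u`,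
`T ⊆ R c i ⊆ S i`, the points of `T` have colours outside `J` (hfree and not `j`).
`c' = recol c T j`; `W_j(c') = W_j(c) ∪ T ⊇ R c i' = R c' i'`. For every colouring `d` for
which some `i ∈ I' d` has `R d i ⊆ W_j(d)` choose such an index `σ d`. Then
`R c (σ c') ⊆ W_j(c) ∪ T`, so `R c (σ c') \ W_j(c) ⊆ T` and by minimality they are equal, so
`T ⊆ R c' (σ c')`. Sum over `c'` (`4^n`), over `T ∈ powersetCard u (R c' (σ c'))`
(at most `K.choose u`), over `i ∈ I` with `T ⊆ S i` (at most `|I| ρ^{-u}`), and over `c` in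
`Fintype.piFinset (fun x => if x ∈ T then Jᶜ else {c' x})` (`(4 - |J|)^u`). -/
def FragStmt : Prop :=
  ∀ (α ι : Type) [Fintype α] [DecidableEq α] [DecidableEq ι] (J : Finset (Fin 4)) (j : Fin 4)
    (I : Finset ι) (S : ι → Finset α) (ρ : ℝ) (K u : ℕ)
    (I' : (α → Fin 4) → Finset ι) (R : (α → Fin 4) → ι → Finset α),
    j ∈ J → 0 < ρ → 1 ≤ u → Spr ρ I S →
    (∀ c, I' c ⊆ I) →
    (∀ c T, (∀ x ∈ T, c x ∉ J) → I' (recol c T j) = I' c ∧ R (recol c T j) = R c) →
    (∀ c, ∀ i ∈ I' c, ∀ x ∈ R c i, c x = j ∨ c x ∉ J) →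
    (∀ c, ∀ i ∈ I' c, (R c i).card ≤ K) →
    (∀ c, ∀ i ∈ I' c, R c i ⊆ S i) →
    ((((Finset.univ : Finset (α → Fin 4)) ×ˢ I).filter
        (fun p => p.2 ∈ I' p.1 ∧ FragMin (I' p.1) (R p.1) (Wc p.1 j) p.2 u)).card : ℝ) * ρ ^ u ≤
      4 ^ Fintype.card α * (K.choose u) * ((4 - J.card : ℕ) : ℝ) ^ u * I.card

/-- (Num1) the two numerical sums. -/
def Num1Stmt : Prop :=
  ∀ (k t : ℕ) (ρ : ℝ), 1 ≤ k → 0 < ρ → 1100 * (k : ℝ) ≤ ρ ^ 2 → t = ⌊ρ / 16⌋₊ →
    (∑ u ∈ Finset.Ioc t k, (k.choose u : ℝ) * (3 / ρ) ^ u) +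
      (∑ u ∈ Finset.Icc 1 t, (t.choose u : ℝ) * (2 / ρ) ^ u) < 1 / 2

/-- (Spread) the weak spread lemma, from FragStmt and Num1Stmt.
PROOF: see (1) of the note: round 1 is FragStmt with `J = {0}`, `j = 0`, `I' = I`, `R = S`,
`K = k`; round 2 with `J = {0,1}`, `j = 1`, `I' c = {i : f_1 ≤ t}`, `R c i =` the chosen
fragment (a function of `Wc c 0` and `i` only), `K = t`. -/
def SpreadStmt : Prop :=
  ∀ (α ι : Type) [Fintype α] [DecidableEq α] [DecidableEq ι] (I : Finset ι) (S : ι → Finset α)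
    (ρ : ℝ) (k : ℕ), 1 ≤ k → 0 < ρ → 1100 * (k : ℝ) ≤ ρ ^ 2 → I.Nonempty → Spr ρ I S →
    (∀ i ∈ I, (S i).card ≤ k) →
    (4 : ℝ) ^ Fintype.card α < 2 * ((Finset.univ : Finset (α → Fin 4)).filter
      (fun c => ∃ i ∈ I, S i ⊆ Wc c 0 ∪ Wc c 1)).card

/-- (Cross) two spread families contain disjoint members, from SpreadStmt
(permute the colours `0 ↔ 2`, `1 ↔ 3` for the second family). -/
def CrossStmt : Prop :=
  ∀ (α ι κ : Type) [Fintype α] [DecidableEq α] [DecidableEq ι] [DecidableEq κ]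
    (I : Finset ι) (S : ι → Finset α) (I₂ : Finset κ) (S₂ : κ → Finset α)
    (ρ : ℝ) (k : ℕ), 1 ≤ k → 0 < ρ → 1100 * (k : ℝ) ≤ ρ ^ 2 →
    I.Nonempty → Spr ρ I S → (∀ i ∈ I, (S i).card ≤ k) →
    I₂.Nonempty → Spr ρ I₂ S₂ → (∀ i ∈ I₂, (S₂ i).card ≤ k) →
    ∃ i ∈ I, ∃ i₂ ∈ I₂, Disjoint (S i) (S₂ i₂)

/-- (EL) Erdos-Lovasz: degree of a set `S`. Induction on `k - |S|`, branch on a member
missing `S`. -/
def ELStmt : Prop :=
  ∀ (α : Type) [Fintype α] [DecidableEq α] (k : ℕ) (F : Finset (Finset α)),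
    Unif k F → Inter F → Cov k F → ∀ S : Finset α,
      (F.filter (fun A => S ⊆ A)).card ≤ k ^ (k - S.card)

/-- (Low) families with at least `k!` members: `F ↦ {A ∪ {y}} ∪ {Y}`, `|Y| = k + 1`. -/
def LowStmt : Prop :=
  ∀ k : ℕ, 1 ≤ k → ∃ n : ℕ, ∃ F : Finset (Finset (Fin n)),
    Unif k F ∧ Inter F ∧ Cov k F ∧ k.factorial ≤ F.card

/-- (Dec) decomposition of `F'` into spread pieces. `κ A` is the kernel of `A`, `D` the
decomposed part. PROOF: strong induction on `|G|` (`G ⊆ F'` the part which is not yet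
decomposed); if `4 |G| ≤ |F'|` stop; otherwise take `S` maximising `r^|S| |G(S)|`,
`G(S) = {A ∈ G : S ⊆ A}`, put `κ A = S` on `G(S)`. No later kernel is equal to `S`. -/
def DecStmt : Prop :=
  ∀ (α : Type) [Fintype α] [DecidableEq α] (r : ℝ) (F' : Finset (Finset α)), 0 < r →
    ∃ (D : Finset (Finset α)) (κ : Finset α → Finset α),
      D ⊆ F' ∧ 3 * F'.card ≤ 4 * D.card ∧
      (∀ A ∈ D, κ A ⊆ A) ∧
      (∀ A ∈ D, ∀ T : Finset α, Disjoint T (κ A) →
        ((D.filter (fun B => κ B = κ A ∧ T ⊆ B)).card : ℝ) * r ^ T.card ≤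
          (D.filter (fun B => κ B = κ A)).card) ∧
      (∀ A ∈ D, (F'.card : ℝ) < 4 * (r ^ (κ A).card * (F'.filter (fun B => κ A ⊆ B)).card))

/-- (Hit) one kernel meets a constant fraction of `F'`, from CrossStmt and DecStmt.
PROOF: `r = 4 ρ`. For kernels `S, S'` (values of `κ` on `D`) say `H S S'` if
`4 #{B ∈ D : κ B = S, B ∩ S' = ∅} ≤ #{B ∈ D : κ B = S}`. Claim `H S S' ∨ H S' S`: trivial if
`S ∩ S' ≠ ∅`; otherwise CrossStmt for the families `B \ S` (`κ B = S`, `B ∩ S' = ∅`) and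
`B \ S'` (`κ B = S'`, `B ∩ S = ∅`). Average over pairs of `D × D`: some `A' ∈ D` has
`H (κ A) (κ A')` for at least half of the `A ∈ D`. Then
`#{A ∈ D : A ∩ κ A' = ∅} ≤ |D|/4 + |D|/2` (sum over the fibres of `κ`). -/
def HitStmt : Prop :=
  ∀ (α : Type) [Fintype α] [DecidableEq α] (k : ℕ) (ρ : ℝ) (F' : Finset (Finset α)),
    1 ≤ k → 0 < ρ → 1100 * (k : ℝ) ≤ ρ ^ 2 → Unif k F' → Inter F' → F'.Nonempty →
    ∃ S : Finset α,
      3 * F'.card ≤ 16 * (F'.filter (fun A => ¬ Disjoint A S)).card ∧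
      (F'.card : ℝ) < 4 * ((4 * ρ) ^ S.card * (F'.filter (fun B => S ⊆ B)).card)

/-- (Pop) a vertex of degree at least `(log k/(64k)) |F'|`, from HitStmt and ELStmt.
PROOF: (4) of the note; `ρ = sqrt (1100 k)`; for `log k ≤ 20` use a member of `F'`. -/
def PopStmt : Prop :=
  ∀ (α : Type) [Fintype α] [DecidableEq α] (k : ℕ) (F F' : Finset (Finset α)),
    1 ≤ k → Unif k F → Inter F → Cov k F → F' ⊆ F → F'.Nonempty →
    Real.exp (-(k : ℝ)) * (k.factorial : ℝ) ≤ F'.card →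
    ∃ v : α, Real.log k / (64 * k) * (F'.card : ℝ) ≤ (F'.filter (fun A => v ∈ A)).card

/-- (Greedy) from PopStmt: choose popular vertices one after the other. -/
def GreedyStmt : Prop :=
  ∀ (α : Type) [Fintype α] [DecidableEq α] (k a : ℕ) (F : Finset (Finset α)),
    1 ≤ k → Unif k F → Inter F → Cov k F →
    ∃ B : Finset α, B.card ≤ a ∧
      ((F.filter (fun A => Disjoint A B)).card : ℝ) ≤
        max (Real.exp (-(k : ℝ)) * (k.factorial : ℝ))
          ((1 - Real.log k / (64 * k)) ^ a * F.card)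

/-- (Main) the final statement, from GreedyStmt, ELStmt (boundedness) and LowStmt. -/
def MainStmt : Prop :=
  ∀ m : ℕ → ℕ → ℕ,
    (∀ k a : ℕ, m k a = sSup {v : ℕ | ∃ n : ℕ, ∃ F : Finset (Finset (Fin n)),
      (∀ A ∈ F, A.card = k) ∧
      (∀ A ∈ F, ∀ A' ∈ F, ¬ Disjoint A A') ∧
      (∀ T : Finset (Fin n), T.card < k → ∃ A ∈ F, Disjoint A T) ∧
      (∃ B : Finset (Fin n), B.card = a ∧ (F.filter (fun A => Disjoint A B)).card = v) ∧
      (∀ B : Finset (Fin n), B.card = a → v ≤ (F.filter (fun A => Disjoint A B)).card)}) →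
    ∀ k a : ℕ, 1 ≤ k →
      (m k a : ℝ) ≤ Real.exp (-(a * Real.log k / (64 * k))) * (m k 0 : ℝ)

end Pool.Agent.Efc
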