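import Mathlib
import Pool.Agent.Lib.MP_efc1da_co.Spec

set_option autoImplicit false

namespace Pool.Agent.Efc

/-- Exchange the colours `0, 1` with the colours `2, 3`. -/
private def Cross_rot : Fin 4 ≃ Fin 4 := ⟨fun c => c + 2, fun c => c + 2, by decide, by decide⟩

/-- (Cross) two spread families contain disjoint members. -/
theorem cross : SpreadStmt → CrossStmt := by
  intro hS α ι κ _ _ _ _ I S I₂ S₂ ρ k hk hρ hkρ hI hsp hc hI₂ hsp₂ hc₂
  have h1 := hS α ι I S ρ k hk hρ hkρ hI hsp hc
  have h2 := hS α κ I₂ S₂ ρ k hk hρ hkρ hI₂ hsp₂ hc₂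
  set P : (α → Fin 4) → Prop := fun c => ∃ i ∈ I, S i ⊆ Wc c 0 ∪ Wc c 1 with hP
  set Q : (α → Fin 4) → Prop := fun c => ∃ i ∈ I₂, S₂ i ⊆ Wc c 0 ∪ Wc c 1 with hQ
  let e : (α → Fin 4) ≃ (α → Fin 4) := Equiv.arrowCongr (Equiv.refl α) Cross_rot
  have he : ∀ c x, e c x = c x + 2 := fun c x => rfl
  classical
  have h3 : ((Finset.univ : Finset (α → Fin 4)).filter (fun c => Q (e c))).card =
      ((Finset.univ : Finset (α → Fin 4)).filter Q).card := by
    refine Finset.card_bij (fun c _ => e c) ?_ ?_ ?_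
    · intro c hc
      rw [Finset.mem_filter] at hc ⊢
      exact ⟨Finset.mem_univ _, hc.2⟩
    · intro c _ c' _ h
      exact e.injective h
    · intro c hc
      rw [Finset.mem_filter] at hc
      refine ⟨e.symm c, ?_, e.apply_symm_apply c⟩
      rw [Finset.mem_filter, e.apply_symm_apply]
      exact ⟨Finset.mem_univ _, hc.2⟩
  have hex : ∃ c, P c ∧ Q (e c) := by
    by_contra hcon
    push Not at hcon
    have hdisj : Disjoint ((Finset.univ : Finset (α → Fin 4)).filter P)
        ((Finset.univ : Finset (α → Fin 4)).filter (fun c => Q (e c))) := by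
      rw [Finset.disjoint_filter]
      intro c _ h4 h5
      exact hcon c h4 h5
    have h4 := Finset.card_union_of_disjoint hdisj
    have h5 := Finset.card_le_univ (((Finset.univ : Finset (α → Fin 4)).filter P) ∪
      ((Finset.univ : Finset (α → Fin 4)).filter (fun c => Q (e c))))
    rw [h4, h3, Fintype.card_fun, Fintype.card_fin] at h5
    have h6 : ((((Finset.univ : Finset (α → Fin 4)).filter P).card : ℝ) +
        (((Finset.univ : Finset (α → Fin 4)).filter Q).card : ℝ)) ≤
        (4 : ℝ) ^ Fintype.card α := by exact_mod_cast h5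
    have h1' : (4 : ℝ) ^ Fintype.card α <
        2 * (((Finset.univ : Finset (α → Fin 4)).filter P).card : ℝ) := by
      convert h1
    have h2' : (4 : ℝ) ^ Fintype.card α <
        2 * (((Finset.univ : Finset (α → Fin 4)).filter Q).card : ℝ) := by
      convert h2
    linarith
  obtain ⟨c, ⟨i, hi, hi1⟩, ⟨i₂, hi₂, hi3⟩⟩ := hex
  refine ⟨i, hi, i₂, hi₂, ?_⟩
  rw [Finset.disjoint_left]
  intro x hx1 hx2
  have h4 := hi1 hx1
  have h5 := hi3 hx2
  simp only [Wc, Finset.mem_union, Finset.mem_filter, Finset.mem_univ, true_and, he] at h4 h5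
  generalize c x = d at h4 h5
  revert h4 h5
  revert d
  decide

end Pool.Agent.Efc
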