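import Mathlib
import Pool.Agent.Lib.MP_efc1da_co.Spec

set_option autoImplicit false

namespace Pool.Agent.Efc

/-- The induction for the decomposition. -/
theorem Dec_ind {α : Type} [Fintype α] [DecidableEq α] (r : ℝ) (F' : Finset (Finset α))
    (hr : 0 < r) (G : Finset (Finset α)) : G ⊆ F' →
    ∃ (D : Finset (Finset α)) (κ : Finset α → Finset α),
      D ⊆ G ∧ 4 * G.card ≤ F'.card + 4 * D.card ∧
      (∀ A ∈ D, κ A ⊆ A) ∧
      (∀ A ∈ D, ∀ T : Finset α, Disjoint T (κ A) →
        ((D.filter (fun B => κ B = κ A ∧ T ⊆ B)).card : ℝ) * r ^ T.card ≤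
          (D.filter (fun B => κ B = κ A)).card) ∧
      (∀ A ∈ D, (F'.card : ℝ) < 4 * (r ^ (κ A).card * (F'.filter (fun B => κ A ⊆ B)).card)) := by
  induction G using Finset.strongInduction with
  | H G ih =>
    intro hG
    by_cases h4 : 4 * G.card ≤ F'.card
    · refine ⟨∅, fun A => A, Finset.empty_subset _, by simpa using h4, ?_, ?_, ?_⟩
      · intro A hA
        exact absurd hA (Finset.notMem_empty _)
      · intro A hA
        exact absurd hA (Finset.notMem_empty _)
      · intro A hA
        exact absurd hA (Finset.notMem_empty _)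
    · push Not at h4
      obtain ⟨S, -, hS⟩ := Finset.exists_max_image (Finset.univ : Finset (Finset α))
        (fun S => r ^ S.card * ((G.filter (fun A => S ⊆ A)).card : ℝ)) ⟨∅, Finset.mem_univ _⟩
      have h0 : (G.card : ℝ) ≤ r ^ S.card * ((G.filter (fun A => S ⊆ A)).card : ℝ) := by
        have h1 := hS ∅ (Finset.mem_univ _)
        have h2 : G.filter (fun A => (∅ : Finset α) ⊆ A) = G :=
          Finset.filter_true_of_mem fun A _ => Finset.empty_subset A
        simp only [Finset.card_empty, pow_zero, one_mul] at h1
        rwa [h2] at h1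
      have h4' : (F'.card : ℝ) < 4 * (G.card : ℝ) := by exact_mod_cast h4
      have hpos : (0 : ℝ) < r ^ S.card * ((G.filter (fun A => S ⊆ A)).card : ℝ) := by
        have h1 : (0 : ℝ) ≤ (F'.card : ℝ) := Nat.cast_nonneg _
        linarith
      have hne : (G.filter (fun A => S ⊆ A)).Nonempty := by
        rw [Finset.nonempty_iff_ne_empty]
        intro h1
        rw [h1, Finset.card_empty, Nat.cast_zero, mul_zero] at hpos
        exact lt_irrefl _ hpos
      have hlt : G \ G.filter (fun A => S ⊆ A) ⊂ G := by
        refine Finset.sdiff_ssubset (Finset.filter_subset _ _) hne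
      obtain ⟨D₁, κ₁, hD1, hc1, hk1, hs1, hb1⟩ := ih _ hlt (Finset.sdiff_subset.trans hG)
      have hnS : ∀ A ∈ D₁, ¬ S ⊆ A := by
        intro A hA h1
        have h2 := hD1 hA
        rw [Finset.mem_sdiff, Finset.mem_filter] at h2
        exact h2.2 ⟨h2.1, h1⟩
      let κ : Finset α → Finset α := fun A => if S ⊆ A then S else κ₁ A
      have hκ1 : ∀ A ∈ D₁, κ A = κ₁ A := fun A hA => if_neg (hnS A hA)
      have hκ2 : ∀ A ∈ G.filter (fun A => S ⊆ A), κ A = S := fun A hA =>
        if_pos (Finset.mem_filter.1 hA).2
      have hκS : ∀ A ∈ D₁, κ₁ A ≠ S := fun A hA h1 => hnS A hA (h1 ▸ hk1 A hA)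
      have hdisj : Disjoint D₁ (G.filter (fun A => S ⊆ A)) := by
        rw [Finset.disjoint_left]
        intro A hA hA'
        exact hnS A hA (Finset.mem_filter.1 hA').2
      refine ⟨D₁ ∪ G.filter (fun A => S ⊆ A), κ, ?_, ?_, ?_, ?_, ?_⟩
      · exact Finset.union_subset (hD1.trans Finset.sdiff_subset) (Finset.filter_subset _ _)
      · rw [Finset.card_union_of_disjoint hdisj]
        have h1 := Finset.card_sdiff_add_card_eq_card
          (Finset.filter_subset (fun A => S ⊆ A) G)
        omega
      · intro A hA
        rcases Finset.mem_union.1 hA with h1 | h1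
        · rw [hκ1 A h1]
          exact hk1 A h1
        · rw [hκ2 A h1]
          exact (Finset.mem_filter.1 h1).2
      · intro A hA T hT
        rcases Finset.mem_union.1 hA with h1 | h1
        · rw [hκ1 A h1] at hT ⊢
          have e1 : ((D₁ ∪ G.filter (fun A => S ⊆ A)).filter
              (fun B => κ B = κ₁ A ∧ T ⊆ B)) = D₁.filter (fun B => κ₁ B = κ₁ A ∧ T ⊆ B) := by
            ext B
            rw [Finset.mem_filter, Finset.mem_filter, Finset.mem_union]
            constructor
            · rintro ⟨h2 | h2, h3, h5⟩
              · exact ⟨h2, (hκ1 B h2) ▸ h3, h5⟩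
              · rw [hκ2 B h2] at h3
                exact absurd h3.symm (hκS A h1)
            · rintro ⟨h2, h3, h5⟩
              exact ⟨Or.inl h2, (hκ1 B h2).trans h3, h5⟩
          have e2 : ((D₁ ∪ G.filter (fun A => S ⊆ A)).filter
              (fun B => κ B = κ₁ A)) = D₁.filter (fun B => κ₁ B = κ₁ A) := by
            ext B
            rw [Finset.mem_filter, Finset.mem_filter, Finset.mem_union]
            constructor
            · rintro ⟨h2 | h2, h3⟩
              · exact ⟨h2, (hκ1 B h2) ▸ h3⟩
              · rw [hκ2 B h2] at h3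
                exact absurd h3.symm (hκS A h1)
            · rintro ⟨h2, h3⟩
              exact ⟨Or.inl h2, (hκ1 B h2).trans h3⟩
          rw [e1, e2]
          exact hs1 A h1 T hT
        · rw [hκ2 A h1] at hT ⊢
          have e1 : ((D₁ ∪ G.filter (fun A => S ⊆ A)).filter
              (fun B => κ B = S ∧ T ⊆ B)) = G.filter (fun B => S ∪ T ⊆ B) := by
            ext B
            rw [Finset.mem_filter, Finset.mem_filter, Finset.mem_union, Finset.union_subset_iff]
            constructor
            · rintro ⟨h2 | h2, h3, h5⟩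
              · rw [hκ1 B h2] at h3
                exact absurd h3 (hκS B h2)
              · exact ⟨(Finset.mem_filter.1 h2).1, (Finset.mem_filter.1 h2).2, h5⟩
            · rintro ⟨h2, h3, h5⟩
              have h6 : B ∈ G.filter (fun A => S ⊆ A) := Finset.mem_filter.2 ⟨h2, h3⟩
              exact ⟨Or.inr h6, hκ2 B h6, h5⟩
          have e2 : ((D₁ ∪ G.filter (fun A => S ⊆ A)).filter
              (fun B => κ B = S)) = G.filter (fun B => S ⊆ B) := by
            ext B
            rw [Finset.mem_filter, Finset.mem_union]
            constructor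
            · rintro ⟨h2 | h2, h3⟩
              · rw [hκ1 B h2] at h3
                exact absurd h3 (hκS B h2)
              · exact h2
            · intro h2
              exact ⟨Or.inr h2, hκ2 B h2⟩
          rw [e1, e2]
          have h2 := hS (S ∪ T) (Finset.mem_univ _)
          rw [Finset.card_union_of_disjoint hT.symm, pow_add, mul_assoc] at h2
          have h3 := le_of_mul_le_mul_left h2 (pow_pos hr S.card)
          rw [mul_comm] at h3
          exact h3
      · intro A hA
        rcases Finset.mem_union.1 hA with h1 | h1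
        · rw [hκ1 A h1]
          exact hb1 A h1
        · rw [hκ2 A h1]
          have h2 : ((G.filter (fun A => S ⊆ A)).card : ℝ) ≤
              ((F'.filter (fun B => S ⊆ B)).card : ℝ) := by
            exact_mod_cast Finset.card_le_card (Finset.filter_subset_filter _ hG)
          have h3 : r ^ S.card * ((G.filter (fun A => S ⊆ A)).card : ℝ) ≤
              r ^ S.card * ((F'.filter (fun B => S ⊆ B)).card : ℝ) :=
            mul_le_mul_of_nonneg_left h2 (pow_pos hr _).le
          linarith

theorem dec : DecStmt := by
  intro α _ _ r F' hr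
  obtain ⟨D, κ, h1, h2, h3, h4, h5⟩ := Dec_ind r F' hr F' (Finset.Subset.refl _)
  exact ⟨D, κ, h1, by omega, h3, h4, h5⟩

end Pool.Agent.Efc
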