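import Mathlib
import Pool.Agent.Lib.MP_efc1da_co.Spec

set_option autoImplicit false

namespace Pool.Agent.Efc

/-- Small cases: at most one member contains a set of at least `k` points. -/
private theorem EL_base {α : Type} [DecidableEq α] (k : ℕ) (F : Finset (Finset α))
    (hU : Unif k F) (S : Finset α) (hS : k ≤ S.card) :
    (F.filter (fun A => S ⊆ A)).card ≤ 1 := by
  rw [Finset.card_le_one]
  intro A hA B hB
  rw [Finset.mem_filter] at hA hB
  have h1 : S = A := Finset.eq_of_subset_of_card_le hA.2 (by rw [hU A hA.1]; exact hS)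
  have h2 : S = B := Finset.eq_of_subset_of_card_le hB.2 (by rw [hU B hB.1]; exact hS)
  rw [← h1, ← h2]

/-- (EL) Erdos-Lovasz bound for the degree of a set. -/
theorem el : ELStmt := by
  intro α _ _ k F hU hI hC S
  induction h : k - S.card generalizing S with
  | zero =>
    rw [pow_zero]
    exact EL_base k F hU S (by omega)
  | succ m ih =>
    have hS : S.card < k := by omega
    obtain ⟨A₀, hA₀, hd⟩ := hC S hS
    have hsub : F.filter (fun A => S ⊆ A) ⊆
        A₀.biUnion (fun x => F.filter (fun A => insert x S ⊆ A)) := by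
      intro A hA
      rw [Finset.mem_filter] at hA
      obtain ⟨x, hx1, hx2⟩ := Finset.not_disjoint_iff.1 (hI A₀ hA₀ A hA.1)
      rw [Finset.mem_biUnion]
      refine ⟨x, hx1, Finset.mem_filter.2 ⟨hA.1, ?_⟩⟩
      exact Finset.insert_subset hx2 hA.2
    calc (F.filter (fun A => S ⊆ A)).card
        ≤ (A₀.biUnion (fun x => F.filter (fun A => insert x S ⊆ A))).card :=
          Finset.card_le_card hsub
      _ ≤ A₀.card * k ^ m := by
          refine Finset.card_biUnion_le_card_mul _ _ _ (fun x hx => ?_)
          apply ih
          have hxS : x ∉ S := fun h' => (Finset.disjoint_left.1 hd hx) h'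
          rw [Finset.card_insert_of_notMem hxS]
          omega
      _ = k ^ (m + 1) := by rw [hU A₀ hA₀, pow_succ, mul_comm]

end Pool.Agent.Efc
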