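import Mathlib
import Pool.Agent.Lib.MP_efc1da_co.Spec

set_option autoImplicit false

namespace Pool.Agent.Efc

/-!
One counting round of the spread lemma.
-/

open Classical in
/-- the chosen member inside the colour class `j` -/
noncomputable def Frag_Q {α ι : Type} [Fintype α] [DecidableEq α] (j : Fin 4)
    (I' : (α → Fin 4) → Finset ι) (R : (α → Fin 4) → ι → Finset α) (d : α → Fin 4) : Finset α :=
  if h : ∃ i ∈ I' d, R d i ⊆ Wc d j then R d h.choose else ∅

theorem Frag_Q_card {α ι : Type} [Fintype α] [DecidableEq α] {j : Fin 4}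
    {I' : (α → Fin 4) → Finset ι} {R : (α → Fin 4) → ι → Finset α} {K : ℕ}
    (hK : ∀ c, ∀ i ∈ I' c, (R c i).card ≤ K) (d : α → Fin 4) : (Frag_Q j I' R d).card ≤ K := by
  unfold Frag_Q
  split_ifs with h
  · exact hK d _ h.choose_spec.1
  · simp

theorem Frag_pi {α : Type} [Fintype α] [DecidableEq α] (J : Finset (Fin 4)) (T : Finset α)
    (c' : α → Fin 4) :
    (Fintype.piFinset (fun x => if x ∈ T then Jᶜ else {c' x})).card = (4 - J.card) ^ T.card := by
  rw [Fintype.card_piFinset]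
  have h : ∀ x : α, (if x ∈ T then Jᶜ else {c' x} : Finset (Fin 4)).card =
      if x ∈ T then 4 - J.card else 1 := by
    intro x
    split_ifs
    · rw [Finset.card_compl, Fintype.card_fin]
    · rw [Finset.card_singleton]
  rw [Finset.prod_congr rfl (fun x _ => h x), Finset.prod_ite, Finset.prod_const,
    Finset.prod_const_one, mul_one, Finset.filter_mem_eq_inter, Finset.univ_inter]

/-- the covering of the set of pairs -/
theorem Frag_cover {α ι : Type} [Fintype α] [DecidableEq α] (J : Finset (Fin 4)) (j : Fin 4)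
    (S : ι → Finset α) (u : ℕ)
    (I' : (α → Fin 4) → Finset ι) (R : (α → Fin 4) → ι → Finset α)
    (hfix : ∀ c T, (∀ x ∈ T, c x ∉ J) → I' (recol c T j) = I' c ∧ R (recol c T j) = R c)
    (hfree : ∀ c, ∀ i ∈ I' c, ∀ x ∈ R c i, c x = j ∨ c x ∉ J)
    (hS : ∀ c, ∀ i ∈ I' c, R c i ⊆ S i) (c : α → Fin 4) (i : ι) (hi : i ∈ I' c)
    (hF : FragMin (I' c) (R c) (Wc c j) i u) :
    ∃ (c' : α → Fin 4) (T : Finset α), T ∈ Finset.powersetCard u (Frag_Q j I' R c') ∧
      c ∈ Fintype.piFinset (fun x => if x ∈ T then Jᶜ else {c' x}) ∧ T ⊆ S i := by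
  obtain ⟨⟨i', hi', hsub, hcard⟩, hmin⟩ := hF
  obtain ⟨T, hTdef⟩ : ∃ T, T = R c i' \ Wc c j := ⟨_, rfl⟩
  rw [← hTdef] at hcard
  have hW : ∀ (d : α → Fin 4) x, x ∈ Wc d j ↔ d x = j := by
    intro d x
    rw [Wc, Finset.mem_filter]
    simp
  have hTR : ∀ x ∈ T, x ∈ R c i' ∧ c x ≠ j := by
    intro x hx
    rw [hTdef, Finset.mem_sdiff, hW] at hx
    exact hx
  have hTJ : ∀ x ∈ T, c x ∉ J := by
    intro x hx
    obtain ⟨h1, h2⟩ := hTR x hx
    exact (hfree c i' hi' x h1).resolve_left h2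
  obtain ⟨hI'c, hRc⟩ := hfix c T hTJ
  have hTRi : T ⊆ R c i := by
    intro x hx
    obtain ⟨h1, h2⟩ := hTR x hx
    rcases Finset.mem_union.1 (hsub h1) with h3 | h3
    · exact h3
    · exact absurd ((hW c x).1 h3) h2
  obtain ⟨c', hc'⟩ : ∃ c', c' = recol c T j := ⟨_, rfl⟩
  have hc'x : ∀ x, c' x = if x ∈ T then j else c x := by
    intro x
    rw [hc']
    rfl
  rw [← hc'] at hI'c hRc
  have hex : ∃ i ∈ I' c', R c' i ⊆ Wc c' j := by
    refine ⟨i', by rw [hI'c]; exact hi', ?_⟩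
    rw [hRc]
    intro x hx
    rw [hW, hc'x]
    split_ifs with h
    · rfl
    · by_contra h1
      exact h (by rw [hTdef, Finset.mem_sdiff, hW]; exact ⟨hx, h1⟩)
  have hQ : Frag_Q j I' R c' = R c' hex.choose := by
    rw [Frag_Q, dif_pos hex]
  obtain ⟨hs1, hs2⟩ := hex.choose_spec
  generalize hex.choose = s at hQ hs1 hs2
  rw [hI'c] at hs1
  rw [hRc] at hs2
  have hsub2 : R c s \ Wc c j ⊆ T := by
    intro x hx
    rw [Finset.mem_sdiff, hW] at hx
    have h1 := hs2 hx.1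
    rw [hW, hc'x] at h1
    by_contra h2
    rw [if_neg h2] at h1
    exact hx.2 h1
  have hle : u ≤ (R c s \ Wc c j).card := by
    apply hmin s hs1
    intro x hx
    rw [Finset.mem_union]
    by_cases h1 : x ∈ Wc c j
    · exact Or.inr h1
    · exact Or.inl (hTRi (hsub2 (Finset.mem_sdiff.2 ⟨hx, h1⟩)))
  have heq : R c s \ Wc c j = T :=
    Finset.eq_of_subset_of_card_le hsub2 (by rw [hcard]; exact hle)
  refine ⟨c', T, ?_, ?_, hTRi.trans (hS c i hi)⟩
  · rw [Finset.mem_powersetCard, hQ, hRc]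
    refine ⟨?_, hcard⟩
    rw [← heq]
    exact Finset.sdiff_subset
  · rw [Fintype.mem_piFinset]
    intro x
    split_ifs with h
    · rw [Finset.mem_compl]
      exact hTJ x h
    · rw [Finset.mem_singleton, hc'x, if_neg h]

open Classical in
theorem Frag_main {α ι : Type} [Fintype α] [DecidableEq α] (J : Finset (Fin 4))
    (j : Fin 4) (I : Finset ι) (S : ι → Finset α) (ρ : ℝ) (K u : ℕ)
    (I' : (α → Fin 4) → Finset ι) (R : (α → Fin 4) → ι → Finset α) (hρ : 0 < ρ) (hu : 1 ≤ u)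
    (hSpr : Spr ρ I S)
    (hfix : ∀ c T, (∀ x ∈ T, c x ∉ J) → I' (recol c T j) = I' c ∧ R (recol c T j) = R c)
    (hfree : ∀ c, ∀ i ∈ I' c, ∀ x ∈ R c i, c x = j ∨ c x ∉ J)
    (hK : ∀ c, ∀ i ∈ I' c, (R c i).card ≤ K)
    (hS : ∀ c, ∀ i ∈ I' c, R c i ⊆ S i) (P : Finset ((α → Fin 4) × ι))
    (hP : ∀ p ∈ P, p.2 ∈ I ∧ p.2 ∈ I' p.1 ∧ FragMin (I' p.1) (R p.1) (Wc p.1 j) p.2 u) :
    (P.card : ℝ) * ρ ^ u ≤
      4 ^ Fintype.card α * (K.choose u) * ((4 - J.card : ℕ) : ℝ) ^ u * I.card := by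
  have hcov : P ⊆ (Finset.univ : Finset (α → Fin 4)).biUnion (fun c' =>
      (Finset.powersetCard u (Frag_Q j I' R c')).biUnion (fun T =>
        Fintype.piFinset (fun x => if x ∈ T then Jᶜ else {c' x}) ×ˢ
          I.filter (fun i => T ⊆ S i))) := by
    rintro ⟨c, i⟩ hp
    obtain ⟨hp1, hp2, hp3⟩ := hP _ hp
    obtain ⟨c', T, hT, hc, hTS⟩ := Frag_cover J j S u I' R hfix hfree hS c i hp2 hp3
    rw [Finset.mem_biUnion]
    refine ⟨c', Finset.mem_univ _, ?_⟩
    rw [Finset.mem_biUnion]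
    refine ⟨T, hT, ?_⟩
    rw [Finset.mem_product, Finset.mem_filter]
    exact ⟨hc, hp1, hTS⟩
  have h1 : P.card ≤ ∑ c' : α → Fin 4, ∑ T ∈ Finset.powersetCard u (Frag_Q j I' R c'),
      (4 - J.card) ^ u * (I.filter (fun i => T ⊆ S i)).card := by
    refine (Finset.card_le_card hcov).trans (Finset.card_biUnion_le.trans
      (Finset.sum_le_sum fun c' _ => Finset.card_biUnion_le.trans
        (Finset.sum_le_sum fun T hT => ?_)))
    rw [Finset.card_product, Frag_pi, (Finset.mem_powersetCard.1 hT).2]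
  have h2 : (P.card : ℝ) * ρ ^ u ≤ ∑ c' : α → Fin 4,
      ∑ T ∈ Finset.powersetCard u (Frag_Q j I' R c'),
      (((4 - J.card : ℕ) : ℝ) ^ u * I.card) := by
    have h3 : (P.card : ℝ) ≤ ∑ c' : α → Fin 4,
        ∑ T ∈ Finset.powersetCard u (Frag_Q j I' R c'),
        (((4 - J.card : ℕ) : ℝ) ^ u * (I.filter (fun i => T ⊆ S i)).card) := by
      exact_mod_cast h1
    refine (mul_le_mul_of_nonneg_right h3 (pow_nonneg hρ.le u)).trans ?_
    rw [Finset.sum_mul]
    refine Finset.sum_le_sum fun c' _ => ?_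
    rw [Finset.sum_mul]
    refine Finset.sum_le_sum fun T hT => ?_
    have hTu := (Finset.mem_powersetCard.1 hT).2
    have hTne : T.Nonempty := by
      rw [← Finset.card_pos, hTu]
      omega
    have h4 : ((I.filter (fun i => T ⊆ S i)).card : ℝ) * ρ ^ T.card ≤ I.card := by
      convert hSpr T hTne
    rw [hTu] at h4
    rw [mul_assoc]
    exact mul_le_mul_of_nonneg_left h4 (by positivity)
  have h5 : ∑ c' : α → Fin 4, ∑ T ∈ Finset.powersetCard u (Frag_Q j I' R c'),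
      (((4 - J.card : ℕ) : ℝ) ^ u * I.card) ≤
      4 ^ Fintype.card α * (K.choose u) * ((4 - J.card : ℕ) : ℝ) ^ u * I.card := by
    have h6 : ∀ c' : α → Fin 4, ∑ T ∈ Finset.powersetCard u (Frag_Q j I' R c'),
        (((4 - J.card : ℕ) : ℝ) ^ u * (I.card : ℝ)) ≤
        (K.choose u : ℝ) * (((4 - J.card : ℕ) : ℝ) ^ u * (I.card : ℝ)) := by
      intro c'
      rw [Finset.sum_const, nsmul_eq_mul, Finset.card_powersetCard]
      refine mul_le_mul_of_nonneg_right ?_ (by positivity)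
      exact_mod_cast Nat.choose_le_choose u (Frag_Q_card hK c')
    refine (Finset.sum_le_sum fun c' _ => h6 c').trans ?_
    rw [Finset.sum_const, nsmul_eq_mul, Finset.card_univ, Fintype.card_fun, Fintype.card_fin]
    apply le_of_eq
    push_cast
    ring
  exact h2.trans h5

theorem frag : FragStmt := by
  classical
  intro α ι _ _ _ J j I S ρ K u I' R _ hρ hu hSpr _ hfix hfree hK hS
  refine Frag_main J j I S ρ K u I' R hρ hu hSpr hfix hfree hK hS _ ?_
  intro p hp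
  rw [Finset.mem_filter, Finset.mem_product] at hp
  exact ⟨hp.1.2, hp.2⟩

end Pool.Agent.Efc
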