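import Mathlib
import Pool.Agent.Lib.MP_efc1da_co.Spec

set_option autoImplicit false

namespace Pool.Agent.Efc

theorem Greedy_one_sub {k : ℕ} (hk : 1 ≤ k) : 0 ≤ 1 - Real.log k / (64 * k) := by
  have hk0 : (0 : ℝ) < k := by exact_mod_cast hk
  have h1 : Real.log k ≤ k - 1 := Real.log_le_sub_one_of_pos hk0
  rw [sub_nonneg, div_le_one (by positivity)]
  linarith

theorem Greedy_step {α : Type} [Fintype α] [DecidableEq α] (F : Finset (Finset α))
    (B : Finset α) (v : α) :
    (F.filter (fun A => Disjoint A (insert v B))).card +
      ((F.filter (fun A => Disjoint A B)).filter (fun A => v ∈ A)).card =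
      (F.filter (fun A => Disjoint A B)).card := by
  have h1 : F.filter (fun A => Disjoint A (insert v B)) =
      (F.filter (fun A => Disjoint A B)).filter (fun A => ¬ v ∈ A) := by
    ext A
    simp only [Finset.mem_filter, Finset.disjoint_insert_right]
    tauto
  rw [h1, add_comm]
  exact Finset.card_filter_add_card_filter_not _

theorem greedy : PopStmt → GreedyStmt := by
  intro hPop α _ _ k a F hk hU hI hC
  set x : ℝ := Real.log k / (64 * k) with hx
  set e : ℝ := Real.exp (-(k : ℝ)) * (k.factorial : ℝ) with he
  have he0 : 0 < e := by positivity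
  have hx1 : 0 ≤ 1 - x := Greedy_one_sub hk
  induction a with
  | zero =>
    refine ⟨∅, by simp, ?_⟩
    refine le_trans ?_ (le_max_right _ _)
    rw [pow_zero, one_mul]
    exact_mod_cast Finset.card_filter_le _ _
  | succ a ih =>
    obtain ⟨B, hB, hle⟩ := ih
    by_cases h1 : ((F.filter (fun A => Disjoint A B)).card : ℝ) ≤ e
    · exact ⟨B, hB.trans (Nat.le_succ a), h1.trans (le_max_left _ _)⟩
    · push Not at h1
      have h2 : ((F.filter (fun A => Disjoint A B)).card : ℝ) ≤ (1 - x) ^ a * F.card := by
        rcases le_max_iff.1 hle with h | h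
        · exact absurd h (not_le.2 h1)
        · exact h
      have hne : (F.filter (fun A => Disjoint A B)).Nonempty := by
        rw [← Finset.card_pos]
        exact_mod_cast he0.trans h1
      obtain ⟨v, hv⟩ := hPop α k F (F.filter (fun A => Disjoint A B)) hk hU hI hC
        (Finset.filter_subset _ _) hne h1.le
      refine ⟨insert v B, (Finset.card_insert_le v B).trans (Nat.succ_le_succ hB), ?_⟩
      refine le_trans ?_ (le_max_right _ _)
      have h3 : ((F.filter (fun A => Disjoint A (insert v B))).card : ℝ) +
          ((F.filter (fun A => Disjoint A B)).filter (fun A => v ∈ A)).card =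
          (F.filter (fun A => Disjoint A B)).card := by
        exact_mod_cast Greedy_step F B v
      have h4 : (1 - x) * ((F.filter (fun A => Disjoint A B)).card : ℝ) ≤
          (1 - x) * ((1 - x) ^ a * F.card) := mul_le_mul_of_nonneg_left h2 hx1
      rw [pow_succ]
      have h5 : (1 - x) ^ a * (1 - x) * (F.card : ℝ) = (1 - x) * ((1 - x) ^ a * F.card) := by ring
      rw [h5]
      refine le_trans ?_ h4
      have h6 : (1 - x) * ((F.filter (fun A => Disjoint A B)).card : ℝ) =
          (F.filter (fun A => Disjoint A B)).card -
            x * ((F.filter (fun A => Disjoint A B)).card : ℝ) := by ring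
      rw [h6]
      linarith

end Pool.Agent.Efc
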