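import Mathlib
import Pool.Agent.Lib.MP_efc1da_co.Spec

set_option autoImplicit false

/-!
MP_efc1da_co: one kernel meets a constant fraction of the family (tournament averaging).
-/

namespace Pool.Agent.Efc

open Finset

/-- few members with the kernel `S` miss `S'` -/
def Hit_H {α : Type} [DecidableEq α] (D : Finset (Finset α)) (κ : Finset α → Finset α)
    (S S' : Finset α) : Prop :=
  4 * (D.filter (fun B => κ B = S ∧ Disjoint B S')).card ≤ (D.filter (fun B => κ B = S)).card

/-- the spreadness of a large part of a fibre -/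
theorem Hit_spr {α : Type} [DecidableEq α] {D : Finset (Finset α)} {κ : Finset α → Finset α}
    {ρ : ℝ} (hρ : 0 < ρ) {S : Finset α} {I : Finset (Finset α)}
    (hI : I ⊆ D.filter (fun B => κ B = S)) (hc : (D.filter (fun B => κ B = S)).card < 4 * I.card)
    (hs : ∀ T : Finset α, Disjoint T S →
      ((D.filter (fun B => κ B = S ∧ T ⊆ B)).card : ℝ) * (4 * ρ) ^ T.card ≤
        (D.filter (fun B => κ B = S)).card) :
    Spr ρ I (fun B => B \ S) := by
  intro T hT
  by_cases hd : Disjoint T S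
  · have h1 := hs T hd
    have h2 : (I.filter (fun B => T ⊆ B \ S)) ⊆ D.filter (fun B => κ B = S ∧ T ⊆ B) := by
      intro B hB
      rw [mem_filter] at hB
      have h3 := mem_filter.1 (hI hB.1)
      exact mem_filter.2 ⟨h3.1, h3.2, hB.2.trans sdiff_subset⟩
    have h4 : ((I.filter (fun B => T ⊆ B \ S)).card : ℝ) ≤
        (D.filter (fun B => κ B = S ∧ T ⊆ B)).card := by exact_mod_cast card_le_card h2
    have h5 : 4 * ρ ^ T.card ≤ (4 * ρ) ^ T.card := by
      rw [mul_pow]
      have h6 : (4 : ℝ) ≤ 4 ^ T.card := by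
        calc (4 : ℝ) = 4 ^ 1 := by norm_num
          _ ≤ 4 ^ T.card := pow_le_pow_right₀ (by norm_num) (Finset.card_pos.2 hT)
      exact mul_le_mul_of_nonneg_right h6 (by positivity)
    have h7 : ((D.filter (fun B => κ B = S)).card : ℝ) < 4 * I.card := by exact_mod_cast hc
    have h8 : ((I.filter (fun B => T ⊆ B \ S)).card : ℝ) * (4 * ρ ^ T.card) ≤
        ((D.filter (fun B => κ B = S ∧ T ⊆ B)).card : ℝ) * (4 * ρ) ^ T.card :=
      mul_le_mul h4 h5 (by positivity) (by positivity)
    linarith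
  · have h1 : I.filter (fun B => T ⊆ B \ S) = ∅ := by
      rw [filter_eq_empty_iff]
      intro B _ h2
      exact hd (disjoint_of_subset_left h2 sdiff_disjoint)
    rw [h1]
    simp

theorem Hit_or (hX : CrossStmt) {α : Type} [Fintype α] [DecidableEq α] {D : Finset (Finset α)}
    {κ : Finset α → Finset α} {ρ : ℝ} {k : ℕ} (hk : 1 ≤ k) (hρ : 0 < ρ)
    (hkr : 1100 * (k : ℝ) ≤ ρ ^ 2) (hu : Unif k D) (hi : Inter D) (hκ : ∀ A ∈ D, κ A ⊆ A)
    {S S' : Finset α}
    (hs : ∀ T : Finset α, Disjoint T S →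
      ((D.filter (fun B => κ B = S ∧ T ⊆ B)).card : ℝ) * (4 * ρ) ^ T.card ≤
        (D.filter (fun B => κ B = S)).card)
    (hs' : ∀ T : Finset α, Disjoint T S' →
      ((D.filter (fun B => κ B = S' ∧ T ⊆ B)).card : ℝ) * (4 * ρ) ^ T.card ≤
        (D.filter (fun B => κ B = S')).card) : Hit_H D κ S S' ∨ Hit_H D κ S' S := by
  by_contra hcon
  rw [not_or] at hcon
  obtain ⟨h1, h2⟩ := hcon
  unfold Hit_H at h1 h2
  rw [not_le] at h1 h2
  set I := D.filter (fun B => κ B = S ∧ Disjoint B S') with hI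
  set I₂ := D.filter (fun B => κ B = S' ∧ Disjoint B S) with hI₂
  have hne : I.Nonempty := by
    rw [← card_pos]; omega
  have hne₂ : I₂.Nonempty := by
    rw [← card_pos]; omega
  have hsub : I ⊆ D.filter (fun B => κ B = S) := by
    intro B hB
    rw [hI, mem_filter] at hB
    exact mem_filter.2 ⟨hB.1, hB.2.1⟩
  have hsub₂ : I₂ ⊆ D.filter (fun B => κ B = S') := by
    intro B hB
    rw [hI₂, mem_filter] at hB
    exact mem_filter.2 ⟨hB.1, hB.2.1⟩
  obtain ⟨B, hB, B₂, hB₂, hd⟩ := hX α (Finset α) (Finset α) I (fun B => B \ S) I₂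
    (fun B => B \ S') ρ k hk hρ hkr hne (Hit_spr hρ hsub h1 hs)
    (fun B hB => (card_le_card sdiff_subset).trans
      (hu B (mem_filter.1 (hsub hB)).1).le) hne₂ (Hit_spr hρ hsub₂ h2 hs')
    (fun B hB => (card_le_card sdiff_subset).trans
      (hu B (mem_filter.1 (hsub₂ hB)).1).le)
  rw [hI, mem_filter] at hB
  rw [hI₂, mem_filter] at hB₂
  apply hi B hB.1 B₂ hB₂.1
  rw [Finset.disjoint_left] at hd ⊢
  intro x hx hx₂
  have e1 : x ∉ S := fun h => (Finset.disjoint_left.1 hB₂.2.2) hx₂ h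
  have e2 : x ∉ S' := fun h => (Finset.disjoint_left.1 hB.2.2) hx h
  exact hd (mem_sdiff.2 ⟨hx, e1⟩) (mem_sdiff.2 ⟨hx₂, e2⟩)

open Classical in
/-- some element is dominated by at least half of the elements -/
theorem Hit_avg {β : Type} (D : Finset β) (hD : D.Nonempty) (R : β → β → Prop)
    (h : ∀ a ∈ D, ∀ b ∈ D, R a b ∨ R b a) :
    ∃ b ∈ D, D.card ≤ 2 * (D.filter (fun a => R a b)).card := by
  by_contra hcon
  push Not at hcon
  have h1 : ∑ b ∈ D, 2 * (D.filter (fun a => R a b)).card < ∑ _b ∈ D, D.card :=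
    sum_lt_sum_of_nonempty hD (fun b hb => hcon b hb)
  have h2 : ∀ b, (D.filter (fun a => R a b)).card = ∑ a ∈ D, if R a b then 1 else 0 := by
    intro b; rw [card_filter]
  have h3 : ∑ b ∈ D, (D.filter (fun a => R a b)).card =
      ∑ b ∈ D, ∑ a ∈ D, if R a b then 1 else 0 := sum_congr rfl (fun b _ => h2 b)
  have h4 : ∑ b ∈ D, (D.filter (fun a => R a b)).card =
      ∑ b ∈ D, ∑ a ∈ D, if R b a then 1 else 0 := by
    rw [h3]; exact sum_comm
  have h5 : ∑ _b ∈ D, D.card ≤ ∑ b ∈ D, 2 * (D.filter (fun a => R a b)).card := by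
    rw [← mul_sum, two_mul]
    nth_rewrite 1 [h3]
    rw [h4, ← sum_add_distrib]
    apply sum_le_sum
    intro b hb
    rw [← sum_add_distrib, card_eq_sum_ones]
    apply sum_le_sum
    intro a ha
    rcases h a ha b hb with h6 | h6
    · rw [if_pos h6]; omega
    · rw [if_pos h6]; omega
  omega

open Classical in
/-- the sum over the fibres -/
theorem Hit_fib {α : Type} [DecidableEq α] (D : Finset (Finset α)) (κ : Finset α → Finset α)
    (S' : Finset α) :
    4 * (D.filter (fun A => Hit_H D κ (κ A) S' ∧ Disjoint A S')).card ≤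
      (D.filter (fun A => Hit_H D κ (κ A) S')).card := by
  set K := (D.image κ).filter (fun S => Hit_H D κ S S') with hK
  have h1 : (D.filter (fun A => Hit_H D κ (κ A) S')).card =
      ∑ S ∈ K, ((D.filter (fun A => Hit_H D κ (κ A) S')).filter (fun A => κ A = S)).card := by
    apply card_eq_sum_card_fiberwise
    intro A hA
    rw [mem_coe, mem_filter] at hA
    rw [mem_coe, hK, mem_filter]
    exact ⟨mem_image_of_mem κ hA.1, hA.2⟩
  have h2 : (D.filter (fun A => Hit_H D κ (κ A) S' ∧ Disjoint A S')).card =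
      ∑ S ∈ K, ((D.filter (fun A => Hit_H D κ (κ A) S' ∧ Disjoint A S')).filter
        (fun A => κ A = S)).card := by
    apply card_eq_sum_card_fiberwise
    intro A hA
    rw [mem_coe, mem_filter] at hA
    rw [mem_coe, hK, mem_filter]
    exact ⟨mem_image_of_mem κ hA.1, hA.2.1⟩
  rw [h1, h2, mul_sum]
  apply sum_le_sum
  intro S hS
  rw [hK, mem_filter] at hS
  have h3 : (D.filter (fun A => Hit_H D κ (κ A) S')).filter (fun A => κ A = S) =
      D.filter (fun B => κ B = S) := by
    ext A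
    simp only [mem_filter]
    constructor
    · rintro ⟨⟨a, _⟩, c⟩; exact ⟨a, c⟩
    · rintro ⟨a, c⟩; exact ⟨⟨a, c ▸ hS.2⟩, c⟩
  have h4 : (D.filter (fun A => Hit_H D κ (κ A) S' ∧ Disjoint A S')).filter (fun A => κ A = S) =
      D.filter (fun B => κ B = S ∧ Disjoint B S') := by
    ext A
    simp only [mem_filter]
    constructor
    · rintro ⟨⟨a, _, d⟩, c⟩; exact ⟨a, c, d⟩
    · rintro ⟨a, c, d⟩; exact ⟨⟨a, c ▸ hS.2, d⟩, c⟩
  rw [h3, h4]
  exact hS.2

open Classical in
theorem hit : CrossStmt → DecStmt → HitStmt := by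
  intro hX hDec α _ _ k ρ F' hk hρ hkr hu hi hne
  obtain ⟨D, κ, hDF, hD34, hκ, hspr, hbig⟩ := hDec α (4 * ρ) F' (by positivity)
  have hF : 0 < F'.card := card_pos.2 hne
  have hD : D.Nonempty := by rw [← card_pos]; omega
  have huD : Unif k D := fun A hA => hu A (hDF hA)
  have hiD : Inter D := fun A hA A' hA' => hi A (hDF hA) A' (hDF hA')
  obtain ⟨A', hA', hhalf⟩ := Hit_avg D hD (fun A A' => Hit_H D κ (κ A) (κ A'))
    (fun A hA A' hA' => Hit_or hX hk hρ hkr huD hiD hκ (hspr A hA) (hspr A' hA'))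
  refine ⟨κ A', ?_, hbig A' hA'⟩
  have h1 := Hit_fib D κ (κ A')
  -- the members of `D` which miss the kernel
  have h2 : (D.filter (fun A => Disjoint A (κ A'))).card ≤
      (D.filter (fun A => Hit_H D κ (κ A) (κ A') ∧ Disjoint A (κ A'))).card +
        (D.filter (fun A => ¬ Hit_H D κ (κ A) (κ A'))).card := by
    rw [← card_union_of_disjoint]
    · apply card_le_card
      intro A hA
      rw [mem_filter] at hA
      rw [mem_union, mem_filter, mem_filter]
      by_cases h : Hit_H D κ (κ A) (κ A')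
      · exact Or.inl ⟨hA.1, h, hA.2⟩
      · exact Or.inr ⟨hA.1, h⟩
    · rw [disjoint_filter]
      intro A _ h h'
      exact h' h.1
  have h3 : (D.filter (fun A => Hit_H D κ (κ A) (κ A'))).card +
      (D.filter (fun A => ¬ Hit_H D κ (κ A) (κ A'))).card = D.card :=
    card_filter_add_card_filter_not _
  have h4 : (D.filter (fun A => Disjoint A (κ A'))).card +
      (D.filter (fun A => ¬ Disjoint A (κ A'))).card = D.card :=
    card_filter_add_card_filter_not _
  have h5 : (D.filter (fun A => ¬ Disjoint A (κ A'))).card ≤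
      (F'.filter (fun A => ¬ Disjoint A (κ A'))).card :=
    card_le_card (filter_subset_filter _ hDF)
  have h6 : (F'.filter (fun A => ¬ Disjoint A (κ A'))).card =
      (F'.filter (fun A => ¬ Disjoint A (κ A'))).card := rfl
  have h7 : 3 * F'.card ≤ 16 * (F'.filter (fun A => ¬ Disjoint A (κ A'))).card := by omega
  convert h7 using 4

end Pool.Agent.Efc
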