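import Mathlib
import Pool.Agent.Lib.MP_efc1da_co.Spec

set_option autoImplicit false

namespace Pool.Agent.Efc

/-- The recursion. -/
theorem Low_rec (k : ℕ) : 1 ≤ k → ∃ (α : Type) (_ : Fintype α) (F : Finset (Finset α)),
    Unif k F ∧ Inter F ∧ Cov k F ∧ k.factorial ≤ F.card := by
  classical
  intro hk
  induction k, hk using Nat.le_induction with
  | base =>
    refine ⟨Unit, inferInstance, {{()}}, ?_, ?_, ?_, ?_⟩
    · intro A hA
      rw [Finset.mem_singleton] at hA
      rw [hA, Finset.card_singleton]
    · intro A hA A' hA' h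
      rw [Finset.mem_singleton] at hA hA'
      subst hA
      subst hA'
      rw [Finset.disjoint_singleton] at h
      exact h rfl
    · intro T hT
      have h1 : T = ∅ := by
        rw [← Finset.card_eq_zero]
        omega
      subst h1
      exact ⟨{()}, Finset.mem_singleton_self _, Finset.disjoint_empty_right _⟩
    · rw [Finset.card_singleton, Nat.factorial_one]
  | succ k hk ih =>
    obtain ⟨α, hα, F, hU, hI, hC, hcard⟩ := ih
    let β : Type := α ⊕ Fin (k + 1)
    let f : Finset α × Fin (k + 1) → Finset β := fun p =>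
      (p.1.map Function.Embedding.inl) ∪ {Sum.inr p.2}
    let Y : Finset β := Finset.univ.map Function.Embedding.inr
    have hfmemL : ∀ p (a : α), (Sum.inl a : β) ∈ f p ↔ a ∈ p.1 := by
      intro p a
      simp [f, β]
    have hfmemR : ∀ p (y : Fin (k + 1)), (Sum.inr y : β) ∈ f p ↔ y = p.2 := by
      intro p y
      simp [f, β]
    have hYL : ∀ a : α, (Sum.inl a : β) ∉ Y := by
      intro a
      simp [Y, β]
    have hYR : ∀ y : Fin (k + 1), (Sum.inr y : β) ∈ Y := by
      intro y
      simp [Y, β]
    have hYc : Y.card = k + 1 := by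
      rw [Finset.card_map, Finset.card_univ, Fintype.card_fin]
    have hfinj : Function.Injective f := by
      rintro ⟨A, y⟩ ⟨A', y'⟩ h
      have h1 : A = A' := by
        ext a
        rw [← hfmemL (A, y) a, ← hfmemL (A', y') a, h]
      have h2 : y = y' := by
        rw [← hfmemR (A', y') y, ← h, hfmemR (A, y) y]
      rw [h1, h2]
    have hfc : ∀ p, (f p).card = p.1.card + 1 := by
      intro p
      have h1 : Disjoint (p.1.map Function.Embedding.inl : Finset β)
          ({Sum.inr p.2} : Finset β) := by
        rw [Finset.disjoint_singleton_right, Finset.mem_map]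
        rintro ⟨a, -, ha⟩
        exact Sum.inl_ne_inr ha
      change ((p.1.map Function.Embedding.inl : Finset β) ∪ {Sum.inr p.2}).card = _
      rw [Finset.card_union_of_disjoint h1, Finset.card_map, Finset.card_singleton]
    let G : Finset (Finset β) := (F ×ˢ (Finset.univ : Finset (Fin (k + 1)))).image f ∪ {Y}
    have hG : ∀ B, B ∈ G ↔ (∃ A ∈ F, ∃ y, f (A, y) = B) ∨ B = Y := by
      intro B
      change B ∈ (F ×ˢ (Finset.univ : Finset (Fin (k + 1)))).image f ∪ {Y} ↔ _
      rw [Finset.mem_union, Finset.mem_singleton, Finset.mem_image]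
      constructor
      · rintro (⟨⟨A, y⟩, h, rfl⟩ | h)
        · exact Or.inl ⟨A, (Finset.mem_product.1 h).1, y, rfl⟩
        · exact Or.inr h
      · rintro (⟨A, hA, y, rfl⟩ | h)
        · exact Or.inl ⟨(A, y), Finset.mem_product.2 ⟨hA, Finset.mem_univ _⟩, rfl⟩
        · exact Or.inr h
    refine ⟨β, inferInstance, G, ?_, ?_, ?_, ?_⟩
    · intro B hB
      rcases (hG B).1 hB with ⟨A, hA, y, rfl⟩ | rfl
      · rw [hfc, hU A hA]
      · exact hYc
    · intro B hB B' hB' hd
      rw [Finset.disjoint_left] at hd
      rcases (hG B).1 hB with ⟨A, hA, y, rfl⟩ | rfl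
      · rcases (hG B').1 hB' with ⟨A', hA', y', rfl⟩ | rfl
        · apply hI A hA A' hA'
          rw [Finset.disjoint_left]
          intro a ha ha'
          exact hd ((hfmemL (A, y) a).2 ha) ((hfmemL (A', y') a).2 ha')
        · exact hd ((hfmemR (A, y) y).2 rfl) (hYR y)
      · rcases (hG B').1 hB' with ⟨A', hA', y', rfl⟩ | rfl
        · exact hd (hYR y') ((hfmemR (A', y') y').2 rfl)
        · exact hd (hYR 0) (hYR 0)
    · intro T hT
      let T₁ : Finset α := Finset.univ.filter fun a => (Sum.inl a : β) ∈ T
      let T₂ : Finset (Fin (k + 1)) := Finset.univ.filter fun y => (Sum.inr y : β) ∈ T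
      have hT1 : ∀ a, a ∈ T₁ ↔ (Sum.inl a : β) ∈ T := by
        intro a
        simp [T₁]
      have hT2 : ∀ y, y ∈ T₂ ↔ (Sum.inr y : β) ∈ T := by
        intro y
        simp [T₂]
      have hc : T₁.card + T₂.card ≤ T.card := by
        have h1 : (T₁.map Function.Embedding.inl : Finset β) ∪
            (T₂.map Function.Embedding.inr : Finset β) ⊆ T := by
          intro b hb
          rcases Finset.mem_union.1 hb with h | h
          · obtain ⟨a, ha, rfl⟩ := Finset.mem_map.1 h
            exact (hT1 a).1 ha
          · obtain ⟨y, hy, rfl⟩ := Finset.mem_map.1 h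
            exact (hT2 y).1 hy
        have h2 : Disjoint (T₁.map Function.Embedding.inl : Finset β)
            (T₂.map Function.Embedding.inr : Finset β) := by
          rw [Finset.disjoint_left]
          intro b hb hb'
          obtain ⟨a, ha, rfl⟩ := Finset.mem_map.1 hb
          obtain ⟨y, hy, hy'⟩ := Finset.mem_map.1 hb'
          exact Sum.inr_ne_inl hy'
        have h3 := Finset.card_le_card h1
        rwa [Finset.card_union_of_disjoint h2, Finset.card_map, Finset.card_map] at h3
      by_cases h0 : T₂ = ∅
      · refine ⟨Y, (hG Y).2 (Or.inr rfl), ?_⟩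
        rw [Finset.disjoint_left]
        rintro (a | y) hb hb'
        · exact hYL a hb
        · have h1 : y ∈ T₂ := (hT2 y).2 hb'
          rw [h0] at h1
          exact absurd h1 (Finset.notMem_empty _)
      · have h1 : 0 < T₂.card := Finset.card_pos.2 (Finset.nonempty_iff_ne_empty.2 h0)
        obtain ⟨A, hA, hAT⟩ := hC T₁ (by omega)
        have h2 : ∃ y : Fin (k + 1), y ∉ T₂ := by
          by_contra h
          push Not at h
          have h3 : T₂ = Finset.univ := Finset.eq_univ_of_forall h
          have h4 : T₂.card = k + 1 := by rw [h3, Finset.card_univ, Fintype.card_fin]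
          omega
        obtain ⟨y, hy⟩ := h2
        refine ⟨f (A, y), (hG _).2 (Or.inl ⟨A, hA, y, rfl⟩), ?_⟩
        rw [Finset.disjoint_left]
        rintro (a | y') hb hb'
        · rw [Finset.disjoint_left] at hAT
          exact hAT ((hfmemL _ _).1 hb) ((hT1 a).2 hb')
        · have h3 : y' = y := (hfmemR _ _).1 hb
          subst h3
          exact hy ((hT2 y').2 hb')
    · have h1 : ((F ×ˢ (Finset.univ : Finset (Fin (k + 1)))).image f).card =
          F.card * (k + 1) := by
        rw [Finset.card_image_of_injective _ hfinj, Finset.card_product, Finset.card_univ,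
          Fintype.card_fin]
      have h2 : ((F ×ˢ (Finset.univ : Finset (Fin (k + 1)))).image f).card ≤ G.card :=
        Finset.card_le_card Finset.subset_union_left
      rw [Nat.factorial_succ]
      rw [h1] at h2
      calc (k + 1) * k.factorial ≤ (k + 1) * F.card := Nat.mul_le_mul_left _ hcard
        _ = F.card * (k + 1) := Nat.mul_comm _ _
        _ ≤ G.card := h2

theorem low : LowStmt := by
  classical
  intro k hk
  obtain ⟨α, hα, F, hU, hI, hC, hcard⟩ := Low_rec k hk
  let e : α ≃ Fin (Fintype.card α) := Fintype.equivFin α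
  refine ⟨Fintype.card α, F.map (Finset.mapEmbedding e.toEmbedding).toEmbedding, ?_, ?_, ?_, ?_⟩
  · intro B hB
    obtain ⟨A, hA, rfl⟩ := Finset.mem_map.1 hB
    change (A.map e.toEmbedding).card = k
    rw [Finset.card_map]
    exact hU A hA
  · intro B hB B' hB' hd
    obtain ⟨A, hA, rfl⟩ := Finset.mem_map.1 hB
    obtain ⟨A', hA', rfl⟩ := Finset.mem_map.1 hB'
    apply hI A hA A' hA'
    exact (Finset.disjoint_map e.toEmbedding).1 hd
  · intro T hT
    have h1 : (T.map e.symm.toEmbedding).card < k := by rwa [Finset.card_map]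
    obtain ⟨A, hA, hAT⟩ := hC _ h1
    refine ⟨A.map e.toEmbedding, Finset.mem_map.2 ⟨A, hA, rfl⟩, ?_⟩
    rw [Finset.disjoint_left] at hAT ⊢
    intro y hy hyT
    obtain ⟨a, ha, rfl⟩ := Finset.mem_map.1 hy
    refine hAT ha (Finset.mem_map.2 ⟨_, hyT, ?_⟩)
    change e.symm (e a) = a
    exact e.symm_apply_apply a
  · rw [Finset.card_map]
    exact hcard

end Pool.Agent.Efc
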