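import Mathlib
import Pool.Agent.Lib.MP_efc1da_co.Spec

set_option autoImplicit false

namespace Pool.Agent.Efc

/-- The set whose supremum is taken. -/
private def Main_V (k a : ℕ) : Set ℕ :=
  {v : ℕ | ∃ n : ℕ, ∃ F : Finset (Finset (Fin n)),
      (∀ A ∈ F, A.card = k) ∧
      (∀ A ∈ F, ∀ A' ∈ F, ¬ Disjoint A A') ∧
      (∀ T : Finset (Fin n), T.card < k → ∃ A ∈ F, Disjoint A T) ∧
      (∃ B : Finset (Fin n), B.card = a ∧ (F.filter (fun A => Disjoint A B)).card = v) ∧
      (∀ B : Finset (Fin n), B.card = a → v ≤ (F.filter (fun A => Disjoint A B)).card)}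

private theorem Main_card (hEL : ELStmt) {k n : ℕ} {F : Finset (Finset (Fin n))}
    (h1 : ∀ A ∈ F, A.card = k) (h2 : ∀ A ∈ F, ∀ A' ∈ F, ¬ Disjoint A A')
    (h3 : ∀ T : Finset (Fin n), T.card < k → ∃ A ∈ F, Disjoint A T) : F.card ≤ k ^ k := by
  have h := hEL (Fin n) k F h1 h2 h3 ∅
  rw [Finset.filter_true_of_mem fun A _ => Finset.empty_subset A, Finset.card_empty,
    Nat.sub_zero] at h
  exact h

private theorem Main_bdd (hEL : ELStmt) (k a : ℕ) : BddAbove (Main_V k a) := by
  refine ⟨k ^ k, ?_⟩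
  rintro v ⟨n, F, h1, h2, h3, ⟨B, -, hB⟩, -⟩
  rw [← hB]
  exact (Finset.card_le_card (Finset.filter_subset _ _)).trans (Main_card hEL h1 h2 h3)

private theorem Main_mem_zero {k n : ℕ} {F : Finset (Finset (Fin n))}
    (h1 : ∀ A ∈ F, A.card = k) (h2 : ∀ A ∈ F, ∀ A' ∈ F, ¬ Disjoint A A')
    (h3 : ∀ T : Finset (Fin n), T.card < k → ∃ A ∈ F, Disjoint A T) :
    F.card ∈ Main_V k 0 := by
  have h4 : F.filter (fun A => Disjoint A (∅ : Finset (Fin n))) = F :=
    Finset.filter_true_of_mem fun A _ => Finset.disjoint_empty_right A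
  refine ⟨n, F, h1, h2, h3, ⟨∅, rfl, by rw [h4]⟩, fun B hB => ?_⟩
  rw [Finset.card_eq_zero.1 hB, h4]

theorem main : GreedyStmt → ELStmt → LowStmt → MainStmt := by
  intro hG hEL hLow m hm k a hk
  have hma : m k a = sSup (Main_V k a) := hm k a
  have hm0 : m k 0 = sSup (Main_V k 0) := hm k 0
  have hk0 : (0 : ℝ) < k := by exact_mod_cast hk
  have hk1 : (1 : ℝ) ≤ k := by exact_mod_cast hk
  -- members of the zero set
  have hle : ∀ {n : ℕ} {F : Finset (Finset (Fin n))}, (∀ A ∈ F, A.card = k) →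
      (∀ A ∈ F, ∀ A' ∈ F, ¬ Disjoint A A') →
      (∀ T : Finset (Fin n), T.card < k → ∃ A ∈ F, Disjoint A T) → F.card ≤ m k 0 := by
    intro n F h1 h2 h3
    rw [hm0]
    exact le_csSup (Main_bdd hEL k 0) (Main_mem_zero h1 h2 h3)
  have hfac : (k.factorial : ℝ) ≤ m k 0 := by
    obtain ⟨n, F, h1, h2, h3, h4⟩ := hLow k hk
    exact_mod_cast h4.trans (hle h1 h2 h3)
  have hRHS : 0 ≤ Real.exp (-(a * Real.log k / (64 * k))) * (m k 0 : ℝ) :=
    mul_nonneg (Real.exp_pos _).le (Nat.cast_nonneg _)
  rcases (Main_V k a).eq_empty_or_nonempty with hV | hV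
  · rw [hma, hV, csSup_empty]
    simpa using hRHS
  · have hmem := Nat.sSup_mem hV (Main_bdd hEL k a)
    rw [← hma] at hmem
    obtain ⟨n, F, h1, h2, h3, ⟨B0, hB0, -⟩, hmin⟩ := hmem
    have han : a ≤ n := by
      rw [← hB0]
      simpa using Finset.card_le_univ B0
    -- extension of sets
    have hext : ∀ B : Finset (Fin n), B.card ≤ a → m k a ≤ (F.filter (fun A => Disjoint A B)).card := by
      intro B hB
      obtain ⟨B', hBB', hB'⟩ := Finset.exists_superset_card_eq hB (by rw [Fintype.card_fin]; exact han)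
      refine (hmin B' hB').trans (Finset.card_le_card ?_)
      intro A hA
      rw [Finset.mem_filter] at hA ⊢
      exact ⟨hA.1, Finset.disjoint_of_subset_right hBB' hA.2⟩
    rcases Nat.lt_or_ge a k with hak | hak
    · obtain ⟨B, hB, hBv⟩ := hG (Fin n) k a F hk h1 h2 h3
      have h4 : (m k a : ℝ) ≤ max (Real.exp (-(k : ℝ)) * (k.factorial : ℝ))
          ((1 - Real.log k / (64 * k)) ^ a * F.card) :=
        le_trans (by exact_mod_cast hext B hB) hBv
      have hlog0 : 0 ≤ Real.log k := Real.log_nonneg hk1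
      have hlogk : Real.log k ≤ k := by
        have := Real.log_le_sub_one_of_pos hk0
        linarith
      refine h4.trans (max_le ?_ ?_)
      · refine mul_le_mul ?_ hfac (Nat.cast_nonneg _) (Real.exp_pos _).le
        apply Real.exp_le_exp.2
        rw [neg_le_neg_iff, div_le_iff₀ (by positivity)]
        have haR : (a : ℝ) ≤ k := by exact_mod_cast hak.le
        have h5 : (a : ℝ) * Real.log k ≤ k * k :=
          mul_le_mul haR hlogk hlog0 hk0.le
        nlinarith
      · have hx1 : Real.log k / (64 * k) ≤ 1 := by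
          rw [div_le_one (by positivity)]
          linarith
        have h5 : (1 - Real.log k / (64 * k)) ^ a ≤ Real.exp (-(a * Real.log k / (64 * k))) := by
          have h6 : 1 - Real.log k / (64 * k) ≤ Real.exp (-(Real.log k / (64 * k))) :=
            Real.one_sub_le_exp_neg _
          have h7 := pow_le_pow_left₀ (by linarith) h6 a
          rw [← Real.exp_nat_mul] at h7
          have h8 : (a : ℝ) * -(Real.log k / (64 * k)) = -(a * Real.log k / (64 * k)) := by ring
          rw [h8] at h7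
          exact h7
        have h6 : (F.card : ℝ) ≤ m k 0 := by exact_mod_cast hle h1 h2 h3
        exact mul_le_mul h5 h6 (Nat.cast_nonneg _) (Real.exp_pos _).le
    · -- a member of the family is inside the set
      obtain ⟨A0, hA0, -⟩ := h3 ∅ (by rw [Finset.card_empty]; omega)
      have h4 := hext A0 (by rw [h1 A0 hA0]; exact hak)
      have h5 : F.filter (fun A => Disjoint A A0) = ∅ := by
        rw [Finset.filter_eq_empty_iff]
        exact fun A hA => h2 A hA A0 hA0
      rw [h5, Finset.card_empty] at h4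
      have h6 : m k a = 0 := by omega
      rw [h6]
      simpa using hRHS

end Pool.Agent.Efc
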