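import Mathlib
import Pool.Agent.Lib.MP_efc1da_co.Spec

set_option autoImplicit false

namespace Pool.Agent.Efc

private theorem Num1_geom (k : ℕ) : ∑ u ∈ Finset.Ioc 0 k, ((1 : ℝ) / 8) ^ u =
    (1 - (1 / 8) ^ k) / 7 := by
  induction k with
  | zero => simp
  | succ k ih =>
    rw [← Finset.sum_Ioc_consecutive _ (Nat.zero_le k) (Nat.le_succ k), ih, Nat.Ioc_succ_singleton,
      Finset.sum_singleton, pow_succ]
    ring

private theorem Num1_term (k u : ℕ) (ρ : ℝ) (hρ : 0 < ρ) (hk : 1100 * (k : ℝ) ≤ ρ ^ 2)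
    (hu : ρ / 16 < u) : (k.choose u : ℝ) * (3 / ρ) ^ u ≤ (1 / 8) ^ u := by
  have h1 : (k.choose u : ℝ) ≤ (k : ℝ) ^ u / (u.factorial : ℝ) := Nat.choose_le_pow_div u k
  have hf : (0 : ℝ) < (u.factorial : ℝ) := by exact_mod_cast u.factorial_pos
  have h2 : (k : ℝ) * (3 / ρ) ≤ 48 / 1100 * u := by
    rw [mul_div_assoc', div_le_iff₀ hρ]
    nlinarith
  have h3 : (u : ℝ) ^ u / (u.factorial : ℝ) ≤ Real.exp u :=
    Real.pow_div_factorial_le_exp u (Nat.cast_nonneg u) u
  have h4 : Real.exp u = Real.exp 1 ^ u := by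
    rw [← Real.exp_nat_mul, mul_one]
  calc (k.choose u : ℝ) * (3 / ρ) ^ u
      ≤ (k : ℝ) ^ u / (u.factorial : ℝ) * (3 / ρ) ^ u := by gcongr
    _ = ((k : ℝ) * (3 / ρ)) ^ u / (u.factorial : ℝ) := by rw [mul_pow]; ring
    _ ≤ (48 / 1100 * u) ^ u / (u.factorial : ℝ) := by gcongr
    _ = (48 / 1100) ^ u * ((u : ℝ) ^ u / (u.factorial : ℝ)) := by rw [mul_pow]; ring
    _ ≤ (48 / 1100) ^ u * Real.exp 1 ^ u := by
        rw [← h4]
        gcongr
    _ = (48 / 1100 * Real.exp 1) ^ u := by rw [mul_pow]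
    _ ≤ (1 / 8) ^ u := by
        have h5 := Real.exp_one_lt_d9
        gcongr
        linarith

/-- The two numerical sums. -/
theorem num1 : Num1Stmt := by
  intro k t ρ hk hρ hkρ ht
  have h1 : (∑ u ∈ Finset.Ioc t k, (k.choose u : ℝ) * (3 / ρ) ^ u) ≤ 1 / 7 := by
    calc (∑ u ∈ Finset.Ioc t k, (k.choose u : ℝ) * (3 / ρ) ^ u)
        ≤ ∑ u ∈ Finset.Ioc t k, ((1 : ℝ) / 8) ^ u := by
          refine Finset.sum_le_sum fun u hu => Num1_term k u ρ hρ hkρ ?_
          rw [Finset.mem_Ioc, ht] at hu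
          exact (Nat.floor_lt (by positivity)).1 hu.1
      _ ≤ ∑ u ∈ Finset.Ioc 0 k, ((1 : ℝ) / 8) ^ u := by
          refine Finset.sum_le_sum_of_subset_of_nonneg
            (Finset.Ioc_subset_Ioc_left (Nat.zero_le t)) fun _ _ _ => by positivity
      _ ≤ 1 / 7 := by
          rw [Num1_geom]
          have : (0 : ℝ) ≤ (1 / 8) ^ k := by positivity
          linarith
  have h2 : (∑ u ∈ Finset.Icc 1 t, (t.choose u : ℝ) * (2 / ρ) ^ u) ≤ 1 / 7 := by
    have h3 : (2 / ρ + 1) ^ t = 1 + ∑ u ∈ Finset.Icc 1 t, (t.choose u : ℝ) * (2 / ρ) ^ u := by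
      rw [add_pow, Finset.range_eq_Ico, Finset.sum_eq_sum_Ico_succ_bot (Nat.succ_pos t)]
      have h4 : Finset.Ico (0 + 1) (t + 1) = Finset.Icc 1 t := by
        ext u
        simp only [Finset.mem_Ico, Finset.mem_Icc]
        omega
      rw [h4]
      simp only [pow_zero, one_pow, Nat.choose_zero_right, Nat.cast_one, mul_one]
      congr 1
      exact Finset.sum_congr rfl fun u _ => mul_comm _ _
    have h5 : (2 / ρ + 1) ^ t ≤ Real.exp (1 / 8) := by
      have h6 : 2 / ρ + 1 ≤ Real.exp (2 / ρ) := Real.add_one_le_exp _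
      have h7 : (0 : ℝ) ≤ 2 / ρ + 1 := by positivity
      calc (2 / ρ + 1) ^ t ≤ Real.exp (2 / ρ) ^ t := by gcongr
        _ = Real.exp (t * (2 / ρ)) := by rw [Real.exp_nat_mul]
        _ ≤ Real.exp (1 / 8) := by
            refine Real.exp_le_exp.2 ?_
            have h8 : (t : ℝ) ≤ ρ / 16 := by
              rw [ht]
              exact Nat.floor_le (by positivity)
            rw [mul_div_assoc', div_le_iff₀ hρ]
            linarith
    have h6 : Real.exp (1 / 8) ≤ 8 / 7 := by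
      have h7 := Real.one_sub_le_exp_neg (1 / 8)
      rw [Real.exp_neg] at h7
      have h8 : (0 : ℝ) < Real.exp (1 / 8) := Real.exp_pos _
      rw [le_inv_comm₀ (by norm_num) h8] at h7
      refine h7.trans ?_
      norm_num
    linarith
  linarith

end Pool.Agent.Efc
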