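import Mathlib
import Pool.Agent.Lib.MP_efc1da_co.Spec

set_option autoImplicit false

namespace Pool.Agent.Efc

private theorem Pop_deg {α : Type} [DecidableEq α] (F' : Finset (Finset α)) (S : Finset α)
    (c x : ℝ) (hc0 : 0 < c) (hc : c ≤ ((F'.filter (fun A => ¬ Disjoint A S)).card : ℝ))
    (hx : (S.card : ℝ) * x ≤ c) : ∃ v : α, x ≤ ((F'.filter (fun A => v ∈ A)).card : ℝ) := by
  by_contra hno
  push Not at hno
  have h1 : (F'.filter (fun A => ¬ Disjoint A S)) ⊆ S.biUnion (fun v => F'.filter (fun A => v ∈ A)) := by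
    intro A hA
    rw [Finset.mem_filter, Finset.not_disjoint_iff] at hA
    obtain ⟨hA, v, hv, hvS⟩ := hA
    rw [Finset.mem_biUnion]
    exact ⟨v, hvS, Finset.mem_filter.2 ⟨hA, hv⟩⟩
  have h2 := (Finset.card_le_card h1).trans Finset.card_biUnion_le
  have h3 : ((F'.filter (fun A => ¬ Disjoint A S)).card : ℝ) ≤
      ∑ v ∈ S, ((F'.filter (fun A => v ∈ A)).card : ℝ) := by exact_mod_cast h2
  rcases S.eq_empty_or_nonempty with hS | hS
  · rw [hS, Finset.sum_empty] at h3
    rw [hS] at hc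
    linarith
  · have h4 : ∑ v ∈ S, ((F'.filter (fun A => v ∈ A)).card : ℝ) < ∑ _v ∈ S, x :=
      Finset.sum_lt_sum_of_nonempty hS fun v _ => hno v
    rw [Finset.sum_const, nsmul_eq_mul] at h4
    linarith

private theorem Pop_real (k s : ℕ) (f ρ : ℝ) (hk : 1 ≤ k) (hs : s ≤ k) (hρ : ρ = Real.sqrt (1100 * k))
    (hl : 64 < Real.log k) (h1 : Real.exp (-(k : ℝ)) * (k.factorial : ℝ) ≤ f)
    (h2 : f < 4 * ((4 * ρ) ^ s * (k : ℝ) ^ (k - s))) : (s : ℝ) * Real.log k ≤ 12 * k := by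
  have hk0 : (0 : ℝ) < k := by exact_mod_cast hk
  have hk1 : (1 : ℝ) ≤ k := by exact_mod_cast hk
  have hρ0 : 0 < ρ := by rw [hρ]; exact Real.sqrt_pos.2 (by positivity)
  have hfac : (0 : ℝ) < k.factorial := by exact_mod_cast k.factorial_pos
  have h3 : (k : ℝ) ^ k * Real.exp (-(k : ℝ)) ≤ k.factorial := by
    have h := Real.pow_div_factorial_le_exp (k : ℝ) hk0.le k
    rw [div_le_iff₀ hfac] at h
    rw [Real.exp_neg, ← div_eq_mul_inv, div_le_iff₀ (Real.exp_pos _)]
    linarith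
  have h4 : Real.exp (-(k : ℝ)) * ((k : ℝ) ^ k * Real.exp (-(k : ℝ))) <
      4 * ((4 * ρ) ^ s * (k : ℝ) ^ (k - s)) :=
    lt_of_le_of_lt ((mul_le_mul_of_nonneg_left h3 (Real.exp_pos _).le).trans h1) h2
  have h5 : (k : ℝ) ^ k = (k : ℝ) ^ (k - s) * (k : ℝ) ^ s := by
    rw [← pow_add]; congr 1; omega
  rw [h5] at h4
  have hp : (0 : ℝ) < (k : ℝ) ^ (k - s) := by positivity
  have h6 : Real.exp (-(k : ℝ)) * Real.exp (-(k : ℝ)) * (k : ℝ) ^ s < 4 * (4 * ρ) ^ s := by
    have e1 : Real.exp (-(k : ℝ)) * ((k : ℝ) ^ (k - s) * (k : ℝ) ^ s * Real.exp (-(k : ℝ))) =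
        (Real.exp (-(k : ℝ)) * Real.exp (-(k : ℝ)) * (k : ℝ) ^ s) * (k : ℝ) ^ (k - s) := by ring
    have e2 : 4 * ((4 * ρ) ^ s * (k : ℝ) ^ (k - s)) = (4 * (4 * ρ) ^ s) * (k : ℝ) ^ (k - s) := by
      ring
    rw [e1, e2] at h4
    exact lt_of_mul_lt_mul_right h4 hp.le
  have h7 := Real.log_lt_log (by positivity) h6
  rw [Real.log_mul (by positivity) (by positivity), Real.log_mul (Real.exp_pos _).ne'
    (Real.exp_pos _).ne', Real.log_exp, Real.log_pow, Real.log_mul (by norm_num) (by positivity),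
    Real.log_pow] at h7
  have hlog4 : Real.log 4 ≤ 2 := by
    have e1 : Real.log 4 = 2 * Real.log 2 := by
      rw [show (4 : ℝ) = 2 ^ 2 by norm_num, Real.log_pow]; norm_num
    have e2 := Real.log_two_lt_d9
    rw [e1]; linarith
  have h8 : Real.log (4 * ρ) ≤ (10 + Real.log k) / 2 := by
    have e1 : 4 * ρ = Real.sqrt (17600 * k) := by
      rw [hρ, show (17600 : ℝ) * k = 4 ^ 2 * (1100 * k) by ring,
        Real.sqrt_mul (by norm_num : (0 : ℝ) ≤ 4 ^ 2) (1100 * k),
        Real.sqrt_sq (by norm_num : (0 : ℝ) ≤ 4)]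
    rw [e1, Real.log_sqrt (by positivity), Real.log_mul (by norm_num) hk0.ne']
    have e2 : Real.log 17600 ≤ 10 := by
      rw [Real.log_le_iff_le_exp (by norm_num)]
      have e3 : (2.7 : ℝ) ≤ Real.exp 1 := by have := Real.exp_one_gt_d9; linarith
      have e4 : Real.exp 10 = Real.exp 1 ^ 10 := by rw [← Real.exp_nat_mul]; norm_num
      rw [e4]
      calc (17600 : ℝ) ≤ 2.7 ^ 10 := by norm_num
        _ ≤ _ := pow_le_pow_left₀ (by norm_num) e3 10
    linarith
  have hs0 : (0 : ℝ) ≤ s := Nat.cast_nonneg _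
  have h9 := mul_le_mul_of_nonneg_left h8 hs0
  nlinarith

theorem pop : HitStmt → ELStmt → PopStmt := by
  intro hHit hEL α _ _ k F F' hk hU hI hC hF' hne hlow
  have hk0 : (0 : ℝ) < k := by exact_mod_cast hk
  have hU' : Unif k F' := fun A hA => hU A (hF' hA)
  have hI' : Inter F' := fun A hA A' hA' => hI A (hF' hA) A' (hF' hA')
  have hpos : (0 : ℝ) < F'.card := by exact_mod_cast hne.card_pos
  by_cases hl : Real.log k ≤ 64
  · obtain ⟨A0, hA0⟩ := hne
    refine Pop_deg F' A0 F'.card _ hpos ?_ ?_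
    · rw [Finset.filter_true_of_mem fun A hA => hI' A hA A0 hA0]
    · rw [hU' A0 hA0, ← mul_assoc]
      have h1 : (k : ℝ) * (Real.log k / (64 * k)) = Real.log k / 64 := by
        field_simp
      rw [h1]
      have h2 : Real.log k / 64 ≤ 1 := by linarith
      nlinarith
  · push Not at hl
    obtain ⟨ρ, hρ⟩ : ∃ ρ : ℝ, ρ = Real.sqrt (1100 * k) := ⟨_, rfl⟩
    have hρ0 : 0 < ρ := by rw [hρ]; exact Real.sqrt_pos.2 (by positivity)
    have hρ2 : 1100 * (k : ℝ) ≤ ρ ^ 2 := by rw [hρ, Real.sq_sqrt (by positivity)]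
    obtain ⟨S, hS1, hS2⟩ := hHit α k ρ F' hk hρ0 hρ2 hU' hI' hne
    have hSk : S.card ≤ k := by
      by_contra hcon
      push Not at hcon
      have h1 : F'.filter (fun B => S ⊆ B) = ∅ := by
        rw [Finset.filter_eq_empty_iff]
        intro B hB hSB
        have := Finset.card_le_card hSB
        rw [hU' B hB] at this
        omega
      rw [h1, Finset.card_empty, Nat.cast_zero, mul_zero, mul_zero] at hS2
      linarith
    have hdeg : ((F'.filter (fun B => S ⊆ B)).card : ℝ) ≤ (k : ℝ) ^ (k - S.card) := by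
      have h1 := hEL α k F hU hI hC S
      have h2 : (F'.filter (fun B => S ⊆ B)).card ≤ (F.filter (fun B => S ⊆ B)).card :=
        Finset.card_le_card (Finset.filter_subset_filter _ hF')
      exact_mod_cast h2.trans h1
    have h3 : (F'.card : ℝ) < 4 * ((4 * ρ) ^ S.card * (k : ℝ) ^ (k - S.card)) :=
      lt_of_lt_of_le hS2 (mul_le_mul_of_nonneg_left (mul_le_mul_of_nonneg_left hdeg (by positivity))
        (by norm_num))
    have h4 := Pop_real k S.card F'.card ρ hk hSk hρ hl hlow h3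
    refine Pop_deg F' S (3 / 16 * F'.card) _ (by positivity) ?_ ?_
    · have h5 : (3 : ℝ) * F'.card ≤ 16 * ((F'.filter (fun A => ¬ Disjoint A S)).card : ℝ) := by
        exact_mod_cast hS1
      linarith
    · have h5 : (S.card : ℝ) * (Real.log k / (64 * k) * F'.card) =
          (S.card * Real.log k) / (64 * k) * F'.card := by ring
      rw [h5]
      refine mul_le_mul_of_nonneg_right ?_ hpos.le
      rw [div_le_iff₀ (by positivity)]
      linarith

end Pool.Agent.Efc
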