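import Mathlib
import Pool.Agent.Lib.MP_efc1da_co.Spec

/-!
# Two rounds give a member inside two colour classes (`SpreadStmt`)
-/

set_option autoImplicit false

namespace Pool.Agent.Efc

theorem Spread_A (hF : FragStmt) {α ι : Type} [Fintype α] [DecidableEq α] [DecidableEq ι]
    (J : Finset (Fin 4)) (j : Fin 4) (I : Finset ι) (S : ι → Finset α) (ρ : ℝ) (K : ℕ)
    (I' : (α → Fin 4) → Finset ι) (R : (α → Fin 4) → ι → Finset α)
    (hj : j ∈ J) (hρ : 0 < ρ) (hS : Spr ρ I S) (hI : ∀ c, I' c ⊆ I)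
    (hinv : ∀ c T, (∀ x ∈ T, c x ∉ J) → I' (recol c T j) = I' c ∧ R (recol c T j) = R c)
    (hfree : ∀ c, ∀ i ∈ I' c, ∀ x ∈ R c i, c x = j ∨ c x ∉ J)
    (hK : ∀ c, ∀ i ∈ I' c, (R c i).card ≤ K) (hRS : ∀ c, ∀ i ∈ I' c, R c i ⊆ S i) :
    ∃ A : ℕ → Finset ((α → Fin 4) × ι),
      (∀ u, 1 ≤ u → ((A u).card : ℝ) ≤
        4 ^ Fintype.card α * I.card * ((K.choose u : ℝ) * (((4 - J.card : ℕ) : ℝ) / ρ) ^ u)) ∧
      ∀ u p, p.2 ∈ I → p.2 ∈ I' p.1 → FragMin (I' p.1) (R p.1) (Wc p.1 j) p.2 u → p ∈ A u := by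
  classical
  refine ⟨fun u => ((Finset.univ : Finset (α → Fin 4)) ×ˢ I).filter
        (fun p => p.2 ∈ I' p.1 ∧ FragMin (I' p.1) (R p.1) (Wc p.1 j) p.2 u), ?_, ?_⟩
  · intro u hu
    have h := hF α ι J j I S ρ K u I' R hj hρ hu hS hI hinv hfree hK hRS
    have hρu : 0 < ρ ^ u := pow_pos hρ u
    rw [div_pow, ← mul_div_assoc, ← mul_div_assoc, le_div_iff₀ hρu]
    refine le_trans ?_ (h.trans (le_of_eq ?_))
    · refine le_of_eq ?_
      congr
    · ring
  · intro u p h0 h1 h2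
    rw [Finset.mem_filter, Finset.mem_product]
    exact ⟨⟨Finset.mem_univ _, h0⟩, h1, h2⟩

/-- minimal fragments. -/
theorem Spread_min {α ι : Type} [DecidableEq α] (I : Finset ι) (R : ι → Finset α) (W : Finset α)
    (i : ι) (hi : i ∈ I) : ∃ i' ∈ I, R i' ⊆ R i ∪ W ∧
      (∀ i'' ∈ I, R i'' ⊆ R i ∪ W → (R i' \ W).card ≤ (R i'' \ W).card) := by
  classical
  obtain ⟨i', h1, h2⟩ := Finset.exists_min_image (I.filter (fun i' => R i' ⊆ R i ∪ W))
    (fun i' => (R i' \ W).card) ⟨i, Finset.mem_filter.2 ⟨hi, Finset.subset_union_left⟩⟩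
  rw [Finset.mem_filter] at h1
  exact ⟨i', h1.1, h1.2, fun i'' h3 h4 => h2 i'' (Finset.mem_filter.2 ⟨h3, h4⟩)⟩

theorem spread : FragStmt → Num1Stmt → SpreadStmt := by
  intro hF hN α ι _ _ _ I S ρ k hk hρ hkρ hI hS hSk
  classical
  obtain ⟨t, ht⟩ : ∃ t : ℕ, t = ⌊ρ / 16⌋₊ := ⟨_, rfl⟩
  have hnum := hN k t ρ hk hρ hkρ ht
  -- the chosen minimisers of the first round
  have hm : ∀ (W : Finset α) (i : ι), ∃ i', i ∈ I → i' ∈ I ∧ S i' ⊆ S i ∪ W ∧
      (∀ i'' ∈ I, S i'' ⊆ S i ∪ W → (S i' \ W).card ≤ (S i'' \ W).card) := by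
    intro W i
    by_cases hi : i ∈ I
    · obtain ⟨i', h1, h2, h3⟩ := Spread_min I S W i hi
      exact ⟨i', fun _ => ⟨h1, h2, h3⟩⟩
    · exact ⟨i, fun h => absurd h hi⟩
  choose m hm using hm
  obtain ⟨R, hR⟩ : ∃ R : (α → Fin 4) → ι → Finset α,
      R = fun c i => S (m (Wc c 0) i) \ Wc c 0 := ⟨_, rfl⟩
  obtain ⟨I', hI'⟩ : ∃ I' : (α → Fin 4) → Finset ι,
      I' = fun c => I.filter (fun i => (R c i).card ≤ t) := ⟨_, rfl⟩
  have hI'I : ∀ c, I' c ⊆ I := fun c => by rw [hI']; exact Finset.filter_subset _ _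
  have hRc : ∀ c i, R c i = S (m (Wc c 0) i) \ Wc c 0 := fun c i => by rw [hR]
  have hmem : ∀ c i, i ∈ I' c ↔ i ∈ I ∧ (R c i).card ≤ t := fun c i => by
    rw [hI', Finset.mem_filter]
  have hRS : ∀ c, ∀ i ∈ I, R c i ⊆ S i := by
    intro c i hi x hx
    rw [hRc, Finset.mem_sdiff] at hx
    rcases Finset.mem_union.1 ((hm (Wc c 0) i hi).2.1 hx.1) with h | h
    · exact h
    · exact absurd h hx.2
  have hR0 : ∀ c i, ∀ x ∈ R c i, c x ≠ 0 := by
    intro c i x hx h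
    rw [hRc, Finset.mem_sdiff] at hx
    exact hx.2 (by rw [Wc, Finset.mem_filter]; exact ⟨Finset.mem_univ _, h⟩)
  -- first round
  obtain ⟨A₁, hA₁, hA₁'⟩ := Spread_A hF {0} 0 I S ρ k (fun _ => I) (fun _ => S)
    (Finset.mem_singleton_self 0) hρ hS (fun _ => Finset.Subset.refl _)
    (fun c T _ => ⟨rfl, rfl⟩)
    (fun c i _ x _ => by rw [Finset.mem_singleton]; exact em _)
    (fun c i hi => hSk i hi) (fun c i _ => Finset.Subset.refl _)
  -- second round
  obtain ⟨A₂, hA₂, hA₂'⟩ := Spread_A hF {0, 1} 1 I S ρ t I' R (by simp) hρ hS hI'I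
    (fun c T hT => by
      have hW : Wc (recol c T 1) 0 = Wc c 0 := by
        ext x
        rw [Wc, Wc, Finset.mem_filter, Finset.mem_filter, recol]
        by_cases hx : x ∈ T
        · have h1 := hT x hx
          simp only [Finset.mem_insert, Finset.mem_singleton, not_or] at h1
          simp [hx, h1.1]
        · simp [hx]
      have hRR : R (recol c T 1) = R c := by
        funext i
        rw [hRc, hRc, hW]
      refine ⟨?_, hRR⟩
      ext i
      rw [hmem, hmem, hRR])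
    (fun c i hi x hx => by
      have h1 := hR0 c i x hx
      by_cases h2 : c x = 1
      · exact Or.inl h2
      · right
        simp [h1, h2])
    (fun c i hi => ((hmem c i).1 hi).2) (fun c i hi => hRS c i (hI'I c hi))
  have hN0 : (0 : ℝ) < I.card := by exact_mod_cast hI.card_pos
  have h4 : (0 : ℝ) < 4 ^ Fintype.card α := pow_pos (by norm_num) _
  obtain ⟨G, hG⟩ : ∃ G : Finset (α → Fin 4), G = Finset.univ.filter
      (fun c => ∃ i ∈ I, S i ⊆ Wc c 0 ∪ Wc c 1) := ⟨_, rfl⟩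
  have hcov : (Finset.univ : Finset (α → Fin 4)) ×ˢ I ⊆
      ((Finset.Ioc t k).biUnion A₁ ∪ (Finset.Icc 1 t).biUnion A₂) ∪ G ×ˢ I := by
    intro p hp
    obtain ⟨c, i⟩ := p
    have hi : i ∈ I := (Finset.mem_product.1 hp).2
    by_cases h1 : (R c i).card ≤ t
    · have hi' : i ∈ I' c := (hmem c i).2 ⟨hi, h1⟩
      obtain ⟨i', h2, h3, h5⟩ := Spread_min (I' c) (R c) (Wc c 1) i hi'
      rcases Nat.eq_zero_or_pos (R c i' \ Wc c 1).card with h6 | h6
      · apply Finset.mem_union_right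
        rw [Finset.mem_product]
        refine ⟨?_, hi⟩
        rw [hG, Finset.mem_filter]
        refine ⟨Finset.mem_univ _, m (Wc c 0) i', (hm _ i' (hI'I c h2)).1, ?_⟩
        intro x hx
        by_cases hx0 : x ∈ Wc c 0
        · exact Finset.mem_union_left _ hx0
        · apply Finset.mem_union_right
          rw [Finset.card_eq_zero, Finset.sdiff_eq_empty_iff_subset] at h6
          apply h6
          rw [hRc, Finset.mem_sdiff]
          exact ⟨hx, hx0⟩
      · apply Finset.mem_union_left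
        apply Finset.mem_union_right
        rw [Finset.mem_biUnion]
        refine ⟨(R c i' \ Wc c 1).card, ?_, ?_⟩
        · rw [Finset.mem_Icc]
          refine ⟨h6, ?_⟩
          exact (Finset.card_le_card Finset.sdiff_subset).trans ((hmem c i').1 h2).2
        · exact hA₂' _ (c, i) hi hi' ⟨⟨i', h2, h3, rfl⟩, h5⟩
    · apply Finset.mem_union_left
      apply Finset.mem_union_left
      rw [Finset.mem_biUnion]
      refine ⟨(R c i).card, ?_, ?_⟩
      · rw [Finset.mem_Ioc]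
        exact ⟨not_le.1 h1, (Finset.card_le_card (hRS c i hi)).trans (hSk i hi)⟩
      · obtain ⟨h2, h3, h5⟩ := hm (Wc c 0) i hi
        refine hA₁' _ (c, i) hi hi ⟨⟨m (Wc c 0) i, h2, h3, by rw [hRc]⟩, ?_⟩
        rw [hRc]
        exact h5
  have hcard := Finset.card_le_card hcov
  have hc2 := hcard.trans ((Finset.card_union_le _ _).trans (Nat.add_le_add_right
    ((Finset.card_union_le _ _).trans (Nat.add_le_add Finset.card_biUnion_le
      Finset.card_biUnion_le)) _))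
  rw [Finset.card_product, Finset.card_product, Finset.card_univ, Fintype.card_fun,
    Fintype.card_fin] at hc2
  have hc3 : (4 : ℝ) ^ Fintype.card α * I.card ≤
      ((∑ u ∈ Finset.Ioc t k, ((A₁ u).card : ℝ)) + ∑ u ∈ Finset.Icc 1 t, ((A₂ u).card : ℝ)) +
        (G.card : ℝ) * I.card := by
    exact_mod_cast hc2
  have hb1 : (∑ u ∈ Finset.Ioc t k, ((A₁ u).card : ℝ)) ≤ 4 ^ Fintype.card α * I.card *
      ∑ u ∈ Finset.Ioc t k, (k.choose u : ℝ) * (3 / ρ) ^ u := by
    rw [Finset.mul_sum]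
    refine Finset.sum_le_sum fun u hu => ?_
    have h1 := hA₁ u (by rw [Finset.mem_Ioc] at hu; omega)
    rw [Finset.card_singleton] at h1
    exact h1.trans (le_of_eq (by norm_num))
  have hb2 : (∑ u ∈ Finset.Icc 1 t, ((A₂ u).card : ℝ)) ≤ 4 ^ Fintype.card α * I.card *
      ∑ u ∈ Finset.Icc 1 t, (t.choose u : ℝ) * (2 / ρ) ^ u := by
    rw [Finset.mul_sum]
    refine Finset.sum_le_sum fun u hu => ?_
    have h1 := hA₂ u (Finset.mem_Icc.1 hu).1
    rw [show ({0, 1} : Finset (Fin 4)).card = 2 from rfl] at h1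
    exact h1.trans (le_of_eq (by norm_num))
  have hpos : (0 : ℝ) < 4 ^ Fintype.card α * I.card := mul_pos h4 hN0
  have hb3 : (4 : ℝ) ^ Fintype.card α * I.card * ((∑ u ∈ Finset.Ioc t k, (k.choose u : ℝ) *
      (3 / ρ) ^ u) + ∑ u ∈ Finset.Icc 1 t, (t.choose u : ℝ) * (2 / ρ) ^ u) <
      4 ^ Fintype.card α * I.card * (1 / 2) := mul_lt_mul_of_pos_left hnum hpos
  have hfin : (4 : ℝ) ^ Fintype.card α * I.card < 2 * G.card * I.card := by
    rw [mul_add] at hb3
    linarith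
  have hlast := lt_of_mul_lt_mul_right hfin hN0.le
  rw [hG] at hlast
  refine lt_of_lt_of_eq hlast ?_
  congr

end Pool.Agent.Efc
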